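import Mathlib

/-!
# The number of words obtained by inserting letters
-/

set_option linter.unusedSectionVars false

namespace Pool.Agent.Run7.h192.Poly

open Finset Real

section Count

variable {ι : Type*} [Fintype ι] [DecidableEq ι] {m B n N : ℕ} {R : Type*} [Fintype R]
  [DecidableEq R] (e : (Fin m × Fin B) ⊕ R ≃ Fin N) (y : Fin m → ι)

/-- The number of the letters `y k` in the block `k` of the word `x`. -/
def hits (x : Fin N → ι) (k : Fin m) : ℕ :=
  (univ.filter fun s : Fin B => x (e (Sum.inl (k, s))) = y k).card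

/-- The number of the positions of `y` in `x`, with one letter in each block. -/
lemma card_occ (x : Fin N → ι) :
    (univ.filter fun t : Fin m → Fin B => ∀ k, x (e (Sum.inl (k, t k))) = y k).card =
      ∏ k, hits e y x k := by
  have h1 : (univ.filter fun t : Fin m → Fin B => ∀ k, x (e (Sum.inl (k, t k))) = y k) =
      Fintype.piFinset fun k => univ.filter fun s : Fin B => x (e (Sum.inl (k, s))) = y k := by
    ext t
    simp [Fintype.mem_piFinset]
  rw [h1, Fintype.card_piFinset]
  rfl

lemma sum_ite_exp (c : ι) (l : ℝ) :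
    ∑ a : ι, exp (l * if a = c then 1 else 0) = exp l + (Fintype.card ι - 1) := by
  have h1 : ∀ a : ι, exp (l * if a = c then 1 else 0) = 1 + if a = c then exp l - 1 else 0 := by
    intro a
    by_cases h : a = c
    · rw [if_pos h, if_pos h, mul_one]
      ring
    · rw [if_neg h, if_neg h, mul_zero, exp_zero, add_zero]
  rw [sum_congr rfl fun a _ => h1 a, sum_add_distrib, sum_ite_eq' univ c, if_pos (mem_univ c)]
  simp
  ring

/-- The exponential moment of the number of hits. -/
lemma exp_moment (l : ℝ) : ∑ x : Fin N → ι, exp (l * ∑ k, (hits e y x k : ℝ)) =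
    (exp l + (Fintype.card ι - 1)) ^ (m * B) * (Fintype.card ι : ℝ) ^ Fintype.card R := by
  classical
  let g : (Fin m × Fin B) ⊕ R → ι → ℝ :=
    Sum.elim (fun p a => exp (l * if a = y p.1 then 1 else 0)) (fun _ _ => 1)
  have h1 : ∀ x : Fin N → ι, exp (l * ∑ k, (hits e y x k : ℝ)) =
      ∏ p, g p (x (e p)) := by
    intro x
    rw [Fintype.prod_sum_type]
    have h2 : ∏ r : R, g (Sum.inr r) (x (e (Sum.inr r))) = 1 := prod_eq_one fun r _ => rfl
    rw [h2, mul_one, Fintype.prod_prod_type, mul_sum, exp_sum]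
    refine prod_congr rfl fun k _ => ?_
    have h3 : (hits e y x k : ℝ) = ∑ s : Fin B, if x (e (Sum.inl (k, s))) = y k then 1 else 0 := by
      rw [hits, card_filter]
      push_cast
      rfl
    rw [h3, mul_sum, exp_sum]
    rfl
  rw [sum_congr rfl fun x _ => h1 x]
  have h4 : ∑ x : Fin N → ι, ∏ p, g p (x (e p)) =
      ∑ z : (Fin m × Fin B) ⊕ R → ι, ∏ p, g p (z p) :=
    Equiv.sum_comp (Equiv.arrowCongr e.symm (Equiv.refl ι)) fun z => ∏ p, g p (z p)
  rw [h4]
  have h5 := prod_univ_sum (fun _ : (Fin m × Fin B) ⊕ R => (univ : Finset ι)) g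
  rw [Fintype.piFinset_univ] at h5
  rw [← h5, Fintype.prod_sum_type]
  congr 1
  · have h6 : ∀ p : Fin m × Fin B, ∑ j, g (Sum.inl p) j = exp l + (Fintype.card ι - 1) :=
      fun p => sum_ite_exp (y p.1) l
    rw [prod_congr rfl fun p _ => h6 p, prod_const, card_univ, Fintype.card_prod,
      Fintype.card_fin, Fintype.card_fin]
  · have h6 : ∀ r : R, ∑ j, g (Sum.inr r) j = Fintype.card ι := by
      intro r
      change ∑ _j : ι, (1 : ℝ) = _
      simp
    rw [prod_congr rfl fun r _ => h6 r, prod_const, card_univ]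

lemma chernoff (hb : 0 < Fintype.card ι) {l : ℝ} (h0 : 0 ≤ l) (h1 : l ≤ 1) :
    ∑ x : Fin N → ι, exp (l * (∑ k, (hits e y x k : ℝ) - m * (B / Fintype.card ι))) ≤
      (Fintype.card ι : ℝ) ^ N * exp (m * (B / Fintype.card ι) * l ^ 2) := by
  have hbR : (0 : ℝ) < Fintype.card ι := by exact_mod_cast hb
  set b : ℝ := (Fintype.card ι : ℝ) with hbd
  have hN : N = m * B + Fintype.card R := by
    have h2 := Fintype.card_congr e
    rw [Fintype.card_sum, Fintype.card_prod, Fintype.card_fin, Fintype.card_fin,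
      Fintype.card_fin] at h2
    exact h2.symm
  have h2 : ∑ x : Fin N → ι, exp (l * (∑ k, (hits e y x k : ℝ) - m * (B / b))) =
      (∑ x : Fin N → ι, exp (l * ∑ k, (hits e y x k : ℝ))) * exp (-(l * (m * (B / b)))) := by
    rw [sum_mul]
    refine sum_congr rfl fun x _ => ?_
    rw [← exp_add]
    congr 1
    ring
  rw [h2, exp_moment]
  have h3 : exp l + (b - 1) ≤ b * exp ((exp l - 1) / b) := by
    have h4 := add_one_le_exp ((exp l - 1) / b)
    calc exp l + (b - 1) = b * ((exp l - 1) / b + 1) := by field_simp; ring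
      _ ≤ _ := mul_le_mul_of_nonneg_left h4 hbR.le
  have h5 : 0 ≤ exp l + (b - 1) := by
    have h6 := one_le_exp h0
    linarith
  have h6 : (exp l + (b - 1)) ^ (m * B) ≤ b ^ (m * B) * exp (m * B * ((exp l - 1) / b)) := by
    refine (pow_le_pow_left₀ h5 h3 _).trans (le_of_eq ?_)
    rw [mul_pow, ← exp_nat_mul]
    push_cast
    rfl
  calc (exp l + (b - 1)) ^ (m * B) * b ^ Fintype.card R * exp (-(l * (m * (B / b))))
      ≤ (b ^ (m * B) * exp (m * B * ((exp l - 1) / b))) * b ^ Fintype.card R *
          exp (-(l * (m * (B / b)))) := by gcongr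
    _ = b ^ N * exp (m * (B / b) * (exp l - 1 - l)) := by
        rw [hN, pow_add]
        have h7 : exp (m * B * ((exp l - 1) / b)) * exp (-(l * (m * (B / b)))) =
            exp (m * (B / b) * (exp l - 1 - l)) := by
          rw [← exp_add]
          congr 1
          field_simp
          ring
        rw [← h7]
        ring
    _ ≤ _ := by
        gcongr
        have h8 := abs_exp_sub_one_sub_id_le (x := l) (by rw [abs_of_nonneg h0]; exact h1)
        exact (le_abs_self _).trans h8

/-- **The number of words.** -/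
theorem count (hb : 0 < Fintype.card ι) (hm : 0 < m) (hB : 2 * m * Fintype.card ι ≤ B)
    (U : Finset (Fin n → ι)) (σ : (Fin m → Fin B) → Fin n → Fin N)
    (hσ : ∀ t u, ∃ x : Fin N → ι, x ∘ σ t = u ∧ ∀ k, x (e (Sum.inl (k, t k))) = y k)
    (S : Finset (Fin N → ι))
    (hS : ∀ x t, x ∘ σ t ∈ U → (∀ k, x (e (Sum.inl (k, t k))) = y k) → x ∈ S)
    (hU : (Fintype.card ι : ℝ) ^ N * (2 * exp (1 - B / Fintype.card ι / (4 * m))) ≤
      (Fintype.card ι : ℝ) ^ m * U.card) :
    (Fintype.card ι : ℝ) ^ m * U.card ≤ 2 * exp 1 * S.card := by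
  classical
  have hbR : (0 : ℝ) < Fintype.card ι := by exact_mod_cast hb
  have hmR : (0 : ℝ) < m := by exact_mod_cast hm
  have hBR : 2 * (m : ℝ) * Fintype.card ι ≤ B := by exact_mod_cast hB
  have hB0 : (0 : ℝ) < B := lt_of_lt_of_le (by positivity) hBR
  -- the count
  have h1 : B ^ m * U.card ≤ ∑ x ∈ S, ∏ k, hits e y x k := by
    choose X hX1 hX2 using hσ
    have h2 : ∑ x ∈ S, ∏ k, hits e y x k = ((S ×ˢ (univ : Finset (Fin m → Fin B))).filter
        fun p => ∀ k, p.1 (e (Sum.inl (k, p.2 k))) = y k).card := by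
      rw [card_filter, sum_product]
      refine sum_congr rfl fun x _ => ?_
      rw [← card_occ, card_filter]
    rw [h2]
    have h3 : B ^ m * U.card = ((univ : Finset (Fin m → Fin B)) ×ˢ U).card := by
      rw [card_product, card_univ, Fintype.card_fun, Fintype.card_fin, Fintype.card_fin]
    rw [h3]
    refine card_le_card_of_injOn (fun p => (X p.1 p.2, p.1)) ?_ ?_
    · rintro ⟨t, u⟩ hp
      have hu : u ∈ U := (mem_product.1 hp).2
      refine mem_coe.2 (mem_filter.2 ⟨mem_product.2 ⟨hS _ t ?_ (hX2 t u), mem_univ _⟩, hX2 t u⟩)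
      rw [hX1]
      exact hu
    · rintro ⟨t, u⟩ _ ⟨t', u'⟩ _ h
      have h4 : X t u = X t' u' := congrArg Prod.fst h
      have h5 : t = t' := congrArg Prod.snd h
      subst h5
      have h6 := hX1 t u
      rw [h4, hX1] at h6
      rw [h6]
  set b : ℝ := (Fintype.card ι : ℝ) with hbd
  set μ : ℝ := B / b with hμ
  have hμ0 : 0 < μ := by positivity
  have hμm : 2 * m ≤ μ := by
    rw [hμ, le_div_iff₀ hbR]
    exact hBR
  set l : ℝ := 1 / (2 * m) with hl
  have hl0 : 0 < l := by positivity
  have hl1 : l ≤ 1 := by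
    have h2 : (1 : ℝ) ≤ m := by exact_mod_cast hm
    rw [hl, div_le_one (by positivity)]
    linarith
  have hlμ : 1 / μ ≤ l := by
    rw [hl]
    exact one_div_le_one_div_of_le (by positivity) hμm
  -- the bound of the number of occurrences
  have h2 : ∀ x : Fin N → ι, (∏ k, (hits e y x k : ℝ)) ≤
      μ ^ m * exp ((∑ k, (hits e y x k : ℝ) - m * μ) / μ) := by
    intro x
    have h3 : ∀ k, (hits e y x k : ℝ) ≤ μ * exp (hits e y x k / μ - 1) := by
      intro k
      have h4 := add_one_le_exp ((hits e y x k : ℝ) / μ - 1)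
      rw [sub_add_cancel] at h4
      calc (hits e y x k : ℝ) = μ * (hits e y x k / μ) := by field_simp
        _ ≤ _ := mul_le_mul_of_nonneg_left h4 hμ0.le
    refine (prod_le_prod (fun k _ => Nat.cast_nonneg _) fun k _ => h3 k).trans (le_of_eq ?_)
    rw [prod_mul_distrib, prod_const, card_univ, Fintype.card_fin, ← exp_sum]
    congr 2
    rw [sum_sub_distrib, ← sum_div, sum_const, card_univ, Fintype.card_fin]
    field_simp
    simp
  have h3 : ∀ x : Fin N → ι, exp ((∑ k, (hits e y x k : ℝ) - m * μ) / μ) ≤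
      exp 1 + exp (l * (∑ k, (hits e y x k : ℝ) - m * μ)) * exp (1 - l * μ) := by
    intro x
    set D : ℝ := ∑ k, (hits e y x k : ℝ) - m * μ with hD
    rcases le_total D μ with h4 | h4
    · have h5 : exp (D / μ) ≤ exp 1 := exp_le_exp.2 ((div_le_one hμ0).2 h4)
      have h6 : 0 < exp (l * D) * exp (1 - l * μ) := by positivity
      linarith
    · have h5 : D / μ ≤ l * D + (1 - l * μ) := by
        have h6 : 0 ≤ (l - 1 / μ) * (D - μ) := mul_nonneg (by linarith) (by linarith)
        have h7 : (l - 1 / μ) * (D - μ) = l * D - D / μ - l * μ + 1 := by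
          field_simp
          ring
        linarith
      have h6 : exp (D / μ) ≤ exp (l * D) * exp (1 - l * μ) := by
        rw [← exp_add]
        exact exp_le_exp.2 h5
      have h7 : 0 < exp 1 := exp_pos 1
      linarith
  have h4 : (B : ℝ) ^ m * U.card ≤ μ ^ m * (exp 1 * S.card +
      b ^ N * exp (1 - μ / (4 * m))) := by
    have h5 : ((B ^ m * U.card : ℕ) : ℝ) ≤ ((∑ x ∈ S, ∏ k, hits e y x k : ℕ) : ℝ) := by
      exact_mod_cast h1
    push_cast at h5
    refine h5.trans ?_
    calc ∑ x ∈ S, ∏ k, (hits e y x k : ℝ)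
        ≤ ∑ x ∈ S, μ ^ m * (exp 1 + exp (l * (∑ k, (hits e y x k : ℝ) - m * μ)) *
            exp (1 - l * μ)) := by
          refine sum_le_sum fun x _ => (h2 x).trans ?_
          exact mul_le_mul_of_nonneg_left (h3 x) (by positivity)
      _ = μ ^ m * (exp 1 * S.card + (∑ x ∈ S, exp (l * (∑ k, (hits e y x k : ℝ) - m * μ))) *
            exp (1 - l * μ)) := by
          rw [← mul_sum, sum_add_distrib, sum_const, nsmul_eq_mul, sum_mul]
          ring
      _ ≤ μ ^ m * (exp 1 * S.card + (b ^ N * exp (m * μ * l ^ 2)) * exp (1 - l * μ)) := by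
          gcongr
          refine le_trans ?_ (chernoff e y hb hl0.le hl1)
          exact sum_le_sum_of_subset_of_nonneg (subset_univ _) fun x _ _ => (exp_pos _).le
      _ = _ := by
          rw [mul_assoc (b ^ N), ← exp_add]
          congr 4
          rw [hl]
          field_simp
          ring
  have h5 : (B : ℝ) ^ m = μ ^ m * b ^ m := by
    rw [← mul_pow, hμ, div_mul_cancel₀ _ hbR.ne']
  rw [h5, mul_assoc] at h4
  have h6 := le_of_mul_le_mul_left h4 (by positivity)
  have h7 : b ^ N * exp (1 - μ / (4 * m)) ≤ b ^ m * U.card / 2 := by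
    linarith
  linarith

end Count

end Pool.Agent.Run7.h192.Poly
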