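import Mathlib

/-!
# Leading words
-/

namespace Pool.Agent.Run7.h192.Poly

open Module

section Echelon

variable {K : Type*} [Field K] {Ω : Type*} [Fintype Ω] {L : Type*} [LinearOrder L]

/-- The leading words of the elements of `S`, for the order given by `ρ`. -/
def Lead (S : Submodule K (Ω → K)) (ρ : Ω → L) : Set Ω :=
  {x | ∃ f ∈ S, f x ≠ 0 ∧ ∀ y, f y ≠ 0 → ρ x ≤ ρ y}

lemma exists_lead {S : Submodule K (Ω → K)} (ρ : Ω → L) {f : Ω → K} (hf : f ∈ S)
    (h0 : f ≠ 0) : ∃ x, f x ≠ 0 ∧ (∀ y, f y ≠ 0 → ρ x ≤ ρ y) ∧ x ∈ Lead S ρ := by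
  classical
  have hne : (Finset.univ.filter fun x => f x ≠ 0).Nonempty := by
    obtain ⟨x, hx⟩ := Function.ne_iff.1 h0
    exact ⟨x, by simpa using hx⟩
  obtain ⟨x, hx, hmin⟩ := Finset.exists_min_image _ ρ hne
  have hx' : f x ≠ 0 := (Finset.mem_filter.1 hx).2
  have h1 : ∀ y, f y ≠ 0 → ρ x ≤ ρ y := fun y hy =>
    hmin y (Finset.mem_filter.2 ⟨Finset.mem_univ _, hy⟩)
  exact ⟨x, hx', h1, f, hf, hx', h1⟩

/-- The number of leading words is at least the dimension. -/
theorem finrank_le_lead (S : Submodule K (Ω → K)) (ρ : Ω → L) :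
    finrank K S ≤ (Lead S ρ).ncard := by
  classical
  let T : S →ₗ[K] (Lead S ρ → K) :=
    (LinearMap.funLeft K K (Subtype.val : Lead S ρ → Ω)) ∘ₗ S.subtype
  have hT : Function.Injective T := by
    rw [← LinearMap.ker_eq_bot, LinearMap.ker_eq_bot']
    intro f hf
    by_contra h0
    obtain ⟨x, hx, -, hx'⟩ := exists_lead ρ f.2 (fun h => h0 (Subtype.ext h))
    exact hx (congrFun hf ⟨x, hx'⟩)
  have h1 := LinearMap.finrank_le_finrank_of_injective hT
  rw [Module.finrank_fintype_fun_eq_card] at h1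
  rw [Set.ncard_eq_toFinset_card', Set.toFinset_card]
  exact h1

/-- The number of leading words is at most the dimension. -/
theorem lead_le_finrank (S : Submodule K (Ω → K)) {ρ : Ω → L} (hρ : Function.Injective ρ)
    (T : Finset Ω) (hT : ∀ x ∈ T, x ∈ Lead S ρ) : T.card ≤ finrank K S := by
  classical
  choose! F hF hFx hFy using hT
  have hli : LinearIndependent K (fun x : T => (⟨F x, hF x x.2⟩ : S)) := by
    rw [Fintype.linearIndependent_iff]
    intro g hg
    by_contra hcon
    push Not at hcon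
    obtain ⟨x₁, hx₁⟩ := hcon
    obtain ⟨x₀, hx₀, hmin⟩ := Finset.exists_min_image
      (Finset.univ.filter fun x : T => g x ≠ 0) (fun x : T => ρ x)
      ⟨x₁, by simpa using hx₁⟩
    have hgx₀ : g x₀ ≠ 0 := (Finset.mem_filter.1 hx₀).2
    have h1 : ∑ x : T, g x * F x x₀ = 0 := by
      have h2 := congrArg (fun f : S => (f : Ω → K) x₀) hg
      simpa [Finset.sum_apply] using h2
    rw [Finset.sum_eq_single x₀] at h1
    · exact mul_ne_zero hgx₀ (hFx x₀ x₀.2) h1
    · intro x _ hx
      by_cases hgx : g x = 0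
      · rw [hgx, zero_mul]
      by_cases hfx : F x x₀ = 0
      · rw [hfx, mul_zero]
      exfalso
      have h3 := hFy x x.2 x₀ hfx
      have h4 := hmin x (Finset.mem_filter.2 ⟨Finset.mem_univ _, hgx⟩)
      exact hx (Subtype.ext (hρ (le_antisymm h3 h4)))
    · intro h
      exact absurd (Finset.mem_univ _) h
  have h1 := hli.fintype_card_le_finrank
  rwa [Fintype.card_coe] at h1

end Echelon

end Pool.Agent.Run7.h192.Poly
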