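import Pool.Agent.Run7.h192.Poly.Layers
import Pool.Agent.N180.CfL
import Pool.Agent.R940.DFin

/-!
# The coordinates of the algebraic classes on the powers of a variety
-/

set_option linter.unusedVariables false
set_option linter.unusedSectionVars false

open CategoryTheory AlgebraicGeometry CategoryTheory.Limits TensorProduct Function

universe u v

namespace Pool.Agent.Run7.h192.Poly

open Pool.Agent.H914 Pool.Agent.W534 Pool.Agent.Y163 VarClass Obj WeilCohomology
  Module Pool.Agent.R908 Pool.Agent.R940 Pool.Agent.N180.Cf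

variable {k : Type u} [Field k] {𝒱 : VarClass k} {ops : CycleOps 𝒱}
  {W : WeilCohomology.{u, v} ops} {X Y Z P : 𝒱.Obj}

section Point

lemma finrank_prodOf (hP : finrank W.K (W.H P) = 1) (hY : IsProductOf {P} Y) :
    finrank W.K (W.H Y) = 1 := by
  induction hY with
  | base h =>
    rw [Set.mem_singleton_iff] at h
    rw [h]
    exact hP
  | prod _ _ h1 h2 =>
    rw [← (kappa W _ _).finrank_eq, Module.finrank_tensorProduct, h1, h2]

lemma nontriv_of_one (hY : finrank W.K (W.H Y) = 1) : Nontrivial (W.H Y) :=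
  Module.nontrivial_of_finrank_pos (R := W.K) (by omega)

lemma eq_smul_one (hY : finrank W.K (W.H Y) = 1) (y : W.H Y) : ∃ c : W.K, y = c • 1 := by
  have := nontriv_of_one hY
  obtain ⟨c, hc⟩ := (finrank_eq_one_iff_of_nonzero' (1 : W.H Y) one_ne_zero).1 hY y
  exact ⟨c, hc.symm⟩

lemma tr_one_ne (hY : finrank W.K (W.H Y) = 1) : W.tr Y 1 ≠ 0 := by
  have := nontriv_of_one hY
  intro h
  refine one_ne_zero (α := W.H Y) (W.nondeg 1 fun b => ?_)
  obtain ⟨c, rfl⟩ := eq_smul_one hY b
  rw [one_mul, map_smul, h, smul_zero]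

lemma dim_of_one (hY : finrank W.K (W.H Y) = 1) : Y.dim = 0 := by
  by_contra h
  exact tr_one_ne hY (W.tr_eq_zero (W.one_mem Y) (by omega))

lemma homEqNum_of_one (hY : finrank W.K (W.H Y) = 1) : HomEqNum W Y := by
  intro j hj z hz h
  have hd := dim_of_one hY
  obtain rfl : j = 0 := by omega
  have h1 := h Y.V.fundCycle (by rw [hd]; exact Y.V.fundCycle_mem)
  have h2 := tr_mul_cl' (W := W) hz Y.V.fundCycle_mem (by omega)
  rw [h1, Rat.cast_zero, W.cl_fund, mul_one] at h2
  obtain ⟨c, hc⟩ := eq_smul_one hY (W.cl Y z)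
  rw [hc, map_smul, smul_eq_mul] at h2
  rw [hc, (mul_eq_zero.1 h2).resolve_right (tr_one_ne hY), zero_smul]

lemma par_zero (hY : finrank W.K (W.H Y) = 1) (g : W.H Y →ₗ[W.K] W.K) : Par W 0 g := by
  intro i a ha hodd
  have h1 : 0 < i := hodd.pos
  rw [W.gr_eq_bot Y i (by rw [dim_of_one hY]; omega), Submodule.mem_bot] at ha
  rw [ha, map_zero]

end Point

variable {l : ℕ} (e : Module.Basis (Fin l) W.K (W.H X))

/-- The coordinates of a class on `X ^ n × Y`. -/
noncomputable def crd (n : ℕ) (g : W.H Y →ₗ[W.K] W.K) :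
    W.H (pX X Y n) →ₗ[W.K] ((Fin n → Fin l) → W.K) :=
  LinearMap.pi fun I => msl W n (fun i => e.coord (I i)) g

lemma crd_apply (n : ℕ) (g : W.H Y →ₗ[W.K] W.K) (α : W.H (pX X Y n)) (I : Fin n → Fin l) :
    crd e n g α I = msl W n (fun i => e.coord (I i)) g α := rfl

/-- The coordinates of the algebraic classes in the middle degree. -/
def IsCrd (P : 𝒱.Obj) (n : ℕ) (f : (Fin n → Fin l) → W.K) : Prop :=
  ∃ (Y : 𝒱.Obj) (g : W.H Y →ₗ[W.K] W.K) (c : ℕ) (α : W.H (pX X Y n)),
    IsProductOf {P} Y ∧ 2 * c = n * X.dim ∧ α ∈ spanCycles W (pX X Y n) c ∧ f = crd e n g α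

/-- The space of the coordinates of the algebraic classes in the middle degree. -/
def SS (P : 𝒱.Obj) (n : ℕ) : Submodule W.K ((Fin n → Fin l) → W.K) :=
  Submodule.span W.K {f | IsCrd e P n f}

lemma one_mem_SS (hP : finrank W.K (W.H P) = 1) : (fun _ => 1) ∈ SS e P 0 := by
  refine Submodule.subset_span ⟨P, (W.tr P 1)⁻¹ • W.tr P, 0, 1,
    IsProductOf.base (Set.mem_singleton P), by ring, one_span _, ?_⟩
  funext I
  rw [crd_apply, msl_zero, LinearMap.smul_apply, smul_eq_mul, inv_mul_cancel₀ (tr_one_ne hP)]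

lemma gen_mul (hP : finrank W.K (W.H P) = 1) {κ₀ : W.H X →ₗ[W.K] W.H X} (hκ : IsSign W X κ₀)
    {n m N : ℕ} {σ : Fin n → Fin N} {τ : Fin m → Fin N} (h : IsMerge σ τ)
    {f : (Fin n → Fin l) → W.K} (hf : IsCrd e P n f) {f' : (Fin m → Fin l) → W.K}
    (hf' : IsCrd e P m f') : mulAt σ τ f f' ∈ SS e P N := by
  obtain ⟨Y, g, c, α, hY, hc, hα, rfl⟩ := hf
  obtain ⟨Y', g', c', α', hY', hc', hα', rfl⟩ := hf'
  have hN : N = m + n := by
    have h1 := Fintype.card_congr (Equiv.ofBijective _ h.bij)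
    rw [Fintype.card_sum, Fintype.card_fin, Fintype.card_fin, Fintype.card_fin] at h1
    omega
  subst hN
  obtain ⟨Φ, hΦ, h1⟩ := exists_prodP hκ Y Y' 0 m n
  have hs : IsMerge (fun i : Fin n => (⟨i, by omega⟩ : Fin (m + n)))
      (fun j : Fin m => (⟨n + j, by omega⟩ : Fin (m + n))) := isMerge_std (by omega)
  set π : Equiv.Perm (Fin (m + n)) :=
    (Equiv.ofBijective _ hs.bij).symm.trans (Equiv.ofBijective _ h.bij) with hπ
  have hπ1 : ∀ i : Fin n, π ⟨i, by omega⟩ = σ i := by
    intro i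
    have h2 : (Equiv.ofBijective _ hs.bij).symm ⟨i, by omega⟩ = Sum.inl i := by
      rw [Equiv.symm_apply_eq]
      rfl
    rw [hπ, Equiv.trans_apply, h2]
    rfl
  have hπ2 : ∀ j : Fin m, π ⟨n + j, by omega⟩ = τ j := by
    intro j
    have h2 : (Equiv.ofBijective _ hs.bij).symm ⟨n + j, by omega⟩ = Sum.inr j := by
      rw [Equiv.symm_apply_eq]
      rfl
    rw [hπ, Equiv.trans_apply, h2]
    rfl
  obtain ⟨Ψ, hΨ, h2⟩ := exists_permP hκ (Y.prod Y') (m + n) π
  have hβ : W.map (fst (pX X Y n) (pX X Y' m)) α * W.map (snd (pX X Y n) (pX X Y' m)) α' ∈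
      spanCycles W ((pX X Y n).prod (pX X Y' m)) ((c : ℤ) + c') :=
    R908.span_mul (span_map _ hα) (span_map _ hα')
  have hβ2 := KOp.map_span hΨ (KOp.map_span hΦ hβ)
  refine Submodule.subset_span ⟨Y.prod Y', tens W g g', c + c', _, IsProductOf.prod hY hY', ?_,
    (by
      rw [add_zero, add_zero] at hβ2
      rw [Nat.cast_add]
      exact hβ2), ?_⟩
  · rw [mul_add, hc, hc']
    ring
  · funext I
    rw [crd_apply]
    have h3 := congrArg (fun F => F (Φ (W.map (fst (pX X Y n) (pX X Y' m)) α *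
      W.map (snd (pX X Y n) (pX X Y' m)) α'))) (h2 (fun i => e.coord (I i)) (tens W g g'))
    beta_reduce at h3
    rw [LinearMap.comp_apply] at h3
    rw [h3]
    have h4 := congrArg (fun F => F (W.map (fst (pX X Y n) (pX X Y' m)) α *
      W.map (snd (pX X Y n) (pX X Y' m)) α')) (h1 ((fun i => e.coord (I i)) ∘ π) g g'
        (par_zero (finrank_prodOf hP hY) g))
    beta_reduce at h4
    rw [LinearMap.comp_apply, tens_tmul] at h4
    rw [h4, mulAt, crd_apply, crd_apply]
    congr 2
    · congr 1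
      funext i
      rw [Function.comp_apply, Function.comp_apply, hπ1]
    · congr 1
      funext j
      rw [Function.comp_apply, Function.comp_apply, hπ2]

lemma SS_mul (hP : finrank W.K (W.H P) = 1) {κ₀ : W.H X →ₗ[W.K] W.H X} (hκ : IsSign W X κ₀) :
    MulClosed (SS e P) := by
  intro n m N σ τ h f hf g hg
  induction hf using Submodule.span_induction with
  | mem f hf =>
    induction hg using Submodule.span_induction with
    | mem g hg => exact gen_mul e hP hκ h hf hg
    | zero =>
      have h1 : mulAt σ τ f (0 : (Fin m → Fin l) → W.K) = 0 := by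
        funext x
        exact mul_zero _
      rw [h1]
      exact Submodule.zero_mem _
    | add g g' _ _ h1 h2 =>
      have h3 : mulAt σ τ f (g + g') = mulAt σ τ f g + mulAt σ τ f g' := by
        funext x
        exact mul_add _ _ _
      rw [h3]
      exact Submodule.add_mem _ h1 h2
    | smul c g _ h1 =>
      have h3 : mulAt σ τ f (c • g) = c • mulAt σ τ f g := by
        funext x
        exact mul_left_comm _ _ _
      rw [h3]
      exact Submodule.smul_mem _ _ h1
  | zero =>
    have h1 : mulAt σ τ (0 : (Fin n → Fin l) → W.K) g = 0 := by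
      funext x
      exact zero_mul _
    rw [h1]
    exact Submodule.zero_mem _
  | add f f' _ _ h1 h2 =>
    have h3 : mulAt σ τ (f + f') g = mulAt σ τ f g + mulAt σ τ f' g := by
      funext x
      exact add_mul _ _ _
    rw [h3]
    exact Submodule.add_mem _ h1 h2
  | smul c f _ h1 =>
    have h3 : mulAt σ τ (c • f) g = c • mulAt σ τ f g := by
      funext x
      exact mul_assoc _ _ _
    rw [h3]
    exact Submodule.smul_mem _ _ h1

end Pool.Agent.Run7.h192.Poly
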