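import Pool.Agent.Run7.h192.Poly.GeoA

/-!
# The transfer between `X ^ n` and `X ^ n × Y`, for `Y` with one-dimensional cohomology
-/

set_option linter.unusedVariables false
set_option linter.unusedSectionVars false

open CategoryTheory AlgebraicGeometry CategoryTheory.Limits TensorProduct Function

universe u v

namespace Pool.Agent.Run7.h192.Poly

open Pool.Agent.H914 Pool.Agent.W534 Pool.Agent.Y163 VarClass Obj WeilCohomology
  Module Pool.Agent.R908 Pool.Agent.R940 Pool.Agent.N180.Cf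

variable {k : Type u} [Field k] {𝒱 : VarClass k} {ops : CycleOps 𝒱}
  {W : WeilCohomology.{u, v} ops} {X Y Z P : 𝒱.Obj}

/-- The external product of linear forms, on a power. -/
noncomputable def psl (W : WeilCohomology.{u, v} ops) {X : 𝒱.Obj} :
    ∀ m : ℕ, (Fin (m + 1) → (W.H X →ₗ[W.K] W.K)) → (W.H (pw X m) →ₗ[W.K] W.K)
  | 0, f => f 0
  | m + 1, f => tens W (f 0) (psl W m (fun i => f i.succ))

lemma push_fst_tmul (a : W.H X) (b : W.H Y) :
    W.push (fst X Y) (W.map (fst X Y) a * W.map (snd X Y) b) = W.tr Y b • a := by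
  apply W.tr_ext
  intro c
  rw [W.tr_push]
  refine gr_induction (W.isInternal X) (p := fun c => W.tr (X.prod Y)
    (W.map (fst X Y) a * W.map (snd X Y) b * W.map (fst X Y) c) = W.tr X (W.tr Y b • a * c))
    ?_ ?_ c
  swap
  · intro c c' hc hc'
    rw [map_add, mul_add, map_add, hc, hc', mul_add, map_add]
  intro i c hc
  refine gr_induction (W.isInternal Y) (p := fun b => W.tr (X.prod Y)
    (W.map (fst X Y) a * W.map (snd X Y) b * W.map (fst X Y) c) = W.tr X (W.tr Y b • a * c))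
    ?_ ?_ b
  swap
  · intro b b' hb hb'
    rw [map_add, mul_add, add_mul, map_add, hb, hb', map_add, add_smul, add_mul, map_add]
  intro j b hb
  rw [mul_assoc, W.comm (W.map_mem _ hb) (W.map_mem _ hc), mul_smul_comm, map_smul, ← mul_assoc,
    ← map_mul, W.tr_prod, smul_mul_assoc, map_smul, smul_eq_mul, smul_eq_mul]
  by_cases hj : j = 2 * Y.dim
  · rw [hj, ((even_two_mul _).mul_right i).neg_one_pow, one_mul, mul_comm]
  · rw [W.tr_eq_zero hb hj, mul_zero, mul_zero, zero_mul]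

lemma transfer_zero (hY : finrank W.K (W.H Y) = 1) :
    ∃ Ψ ∈ KOp W (X.prod Y) X 0, ∃ Ψ' ∈ KOp W X (X.prod Y) 0,
      (∀ f : W.H X →ₗ[W.K] W.K, f ∘ₗ Ψ = tens W f (W.tr Y)) ∧
      (∀ (f : W.H X →ₗ[W.K] W.K) (g : W.H Y →ₗ[W.K] W.K), tens W f g ∘ₗ Ψ' = g 1 • f) ∧
        Ψ ∘ₗ Ψ' = W.tr Y 1 • LinearMap.id := by
  refine ⟨W.push (fst X Y), KOp.cast (KOp.pushHom (fst X Y)) ?_,
    (W.map (fst X Y)).toLinearMap, KOp.mapHom _, fun f => ?_, fun f g => ?_, ?_⟩
  · rw [dim_prod, dim_of_one hY]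
    push_cast
    ring
  · apply ext_kunneth_lin
    intro a b
    rw [LinearMap.comp_apply, push_fst_tmul, map_smul, tens_tmul, smul_eq_mul, mul_comm]
  · apply LinearMap.ext
    intro a
    rw [LinearMap.comp_apply, AlgHom.toLinearMap_apply, LinearMap.smul_apply]
    have h1 := tens_tmul (W := W) f g a (1 : W.H Y)
    rw [map_one, mul_one] at h1
    rw [h1, smul_eq_mul, mul_comm]
  · apply LinearMap.ext
    intro a
    rw [LinearMap.comp_apply, AlgHom.toLinearMap_apply, LinearMap.smul_apply,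
      LinearMap.id_apply]
    have h1 := push_fst_tmul (W := W) a (1 : W.H Y)
    rwa [map_one, mul_one] at h1

lemma transfer_succ {A B : 𝒱.Obj} {Ψ : W.H A →ₗ[W.K] W.H B} {Ψ' : W.H B →ₗ[W.K] W.H A}
    (hΨ : Ψ ∈ KOp W A B 0) (hΨ' : Ψ' ∈ KOp W B A 0) {c : W.K} (h3 : Ψ ∘ₗ Ψ' = c • LinearMap.id) :
    extHom W (LinearMap.id : W.H X →ₗ[W.K] W.H X) Ψ ∈ KOp W (X.prod A) (X.prod B) 0 ∧
    extHom W (LinearMap.id : W.H X →ₗ[W.K] W.H X) Ψ' ∈ KOp W (X.prod B) (X.prod A) 0 ∧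
    extHom W (LinearMap.id : W.H X →ₗ[W.K] W.H X) Ψ ∘ₗ
      extHom W (LinearMap.id : W.H X →ₗ[W.K] W.H X) Ψ' = c • LinearMap.id := by
  refine ⟨KOp.cast (KOp.extHom (KOp.id _) hΨ) (zero_add 0),
    KOp.cast (KOp.extHom (KOp.id _) hΨ') (zero_add 0), ?_⟩
  rw [extHom_comp, h3, LinearMap.comp_id, extHom_smul_right, extHom_id]

/-- The transfer operators. -/
lemma exists_transfer (hY : finrank W.K (W.H Y) = 1) : ∀ m : ℕ,
    ∃ Ψ ∈ KOp W (pX X Y (m + 1)) (pw X m) 0, ∃ Ψ' ∈ KOp W (pw X m) (pX X Y (m + 1)) 0,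
      (∀ f, psl W m f ∘ₗ Ψ = msl W (m + 1) f (W.tr Y)) ∧
      (∀ (f : Fin (m + 1) → (W.H X →ₗ[W.K] W.K)) (g : W.H Y →ₗ[W.K] W.K),
        msl W (m + 1) f g ∘ₗ Ψ' = g 1 • psl W m f) ∧ Ψ ∘ₗ Ψ' = W.tr Y 1 • LinearMap.id := by
  intro m
  induction m with
  | zero =>
    obtain ⟨Ψ, hΨ, Ψ', hΨ', h1, h2, h3⟩ := transfer_zero (X := X) hY
    exact ⟨Ψ, hΨ, Ψ', hΨ', fun f => h1 (f 0), fun f g => h2 (f 0) g, h3⟩
  | succ m ih =>
    obtain ⟨Ψ, hΨ, Ψ', hΨ', h1, h2, h3⟩ := ih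
    obtain ⟨h4, h5, h6⟩ := transfer_succ (X := X) hΨ hΨ' h3
    refine ⟨_, h4, _, h5, fun f => ?_, fun f g => ?_, h6⟩
    · have h7 := tens_extHom (f 0) (psl W m fun i => f i.succ) LinearMap.id Ψ
      rw [LinearMap.comp_id, h1] at h7
      exact h7
    · have h7 := tens_extHom (f 0) (msl W (m + 1) (fun i => f i.succ) g) LinearMap.id Ψ'
      rw [LinearMap.comp_id, h2, tens_smul_right] at h7
      exact h7

variable {l : ℕ} (e : Module.Basis (Fin l) W.K (W.H X))

/-- The coordinates of a class on a power. -/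
noncomputable def crp (m : ℕ) : W.H (pw X m) →ₗ[W.K] ((Fin (m + 1) → Fin l) → W.K) :=
  LinearMap.pi fun I => psl W m (fun i => e.coord (I i))

lemma crp_apply (m : ℕ) (α : W.H (pw X m)) (I : Fin (m + 1) → Fin l) :
    crp e m α I = psl W m (fun i => e.coord (I i)) α := rfl

lemma form_eq (hY : finrank W.K (W.H Y) = 1) (g : W.H Y →ₗ[W.K] W.K) :
    g = (g 1 * (W.tr Y 1)⁻¹) • W.tr Y := by
  apply LinearMap.ext
  intro y
  obtain ⟨c, rfl⟩ := eq_smul_one hY y
  rw [LinearMap.smul_apply, map_smul, map_smul, smul_eq_mul, smul_eq_mul, smul_eq_mul]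
  field_simp [tr_one_ne hY]

lemma msl_smul_right {m : ℕ} (f : Fin m → (W.H X →ₗ[W.K] W.K)) (c : W.K)
    (g : W.H Y →ₗ[W.K] W.K) : msl W m f (c • g) = c • msl W m f g := by
  induction m with
  | zero => rfl
  | succ m ih =>
    rw [msl_succ, msl_succ, ih, tens_smul_right]

/-- The dimension of the space of coordinates. -/
lemma finrank_SS_le (hP : finrank W.K (W.H P) = 1) (n : ℕ) :
    finrank W.K (SS e P (2 * n + 2)) ≤
      finrank W.K (spanCycles W (pw X (2 * n + 1)) (((n + 1) * X.dim : ℕ) : ℤ)) := by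
  have h1 : SS e P (2 * n + 2) ≤
      (spanCycles W (pw X (2 * n + 1)) (((n + 1) * X.dim : ℕ) : ℤ)).map (crp e (2 * n + 1)) := by
    refine Submodule.span_le.2 ?_
    rintro f ⟨Y, g, c, α, hY, hc, hα, rfl⟩
    have hY1 := finrank_prodOf hP hY
    obtain ⟨Ψ, hΨ, Ψ', hΨ', h1, h2, h3⟩ := exists_transfer (X := X) hY1 (2 * n + 1)
    have hc' : c = (n + 1) * X.dim := by
      have h4 : 2 * c = 2 * ((n + 1) * X.dim) := by
        rw [hc]
        ring
      omega
    subst hc'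
    have h5 := KOp.map_span hΨ hα
    rw [add_zero] at h5
    refine ⟨(g 1 * (W.tr Y 1)⁻¹) • Ψ α, Submodule.smul_mem _ _ h5, ?_⟩
    funext I
    rw [map_smul, Pi.smul_apply, crp_apply, crd_apply]
    have h6 := congrArg (fun F => F α) (h1 (fun i => e.coord (I i)))
    beta_reduce at h6
    rw [LinearMap.comp_apply] at h6
    rw [h6]
    conv_rhs => rw [form_eq hY1 g, msl_smul_right, LinearMap.smul_apply]
  exact (Submodule.finrank_mono h1).trans (Submodule.finrank_map_le _ _)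

/-- The coordinates of the algebraic classes on a power. -/
lemma crp_mem (hP : finrank W.K (W.H P) = 1) {m c : ℕ} (hc : 2 * c = (m + 1) * X.dim)
    {β : W.H (pw X m)} (hβ : β ∈ spanCycles W (pw X m) c) : crp e m β ∈ SS e P (m + 1) := by
  obtain ⟨Ψ, hΨ, Ψ', hΨ', h1, h2, h3⟩ := exists_transfer (X := X) hP m
  have h5 := KOp.map_span hΨ' hβ
  rw [add_zero] at h5
  refine Submodule.subset_span ⟨P, (W.tr P 1)⁻¹ • W.tr P, c, Ψ' β,
    IsProductOf.base (Set.mem_singleton P), hc, h5, ?_⟩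
  funext I
  rw [crp_apply, crd_apply]
  have h6 := congrArg (fun F => F β) (h2 (fun i => e.coord (I i)) ((W.tr P 1)⁻¹ • W.tr P))
  beta_reduce at h6
  rw [LinearMap.comp_apply, LinearMap.smul_apply, LinearMap.smul_apply, smul_eq_mul, smul_eq_mul,
    inv_mul_cancel₀ (tr_one_ne hP), one_mul] at h6
  exact h6.symm

/-- The transfer of numerical triviality. -/
lemma crp_num (hP : finrank W.K (W.H P) = 1) {m c : ℕ} {β : W.H (pw X m)}
    (hβ : β ∈ spanCycles W (pw X m) c) :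
    ∃ α ∈ spanCycles W (pX X P (m + 1)) c, (NumTriv W _ α ↔ NumTriv W _ β) ∧
      ∀ I g, msl W (m + 1) (fun i => e.coord (I i)) g α = g 1 * crp e m β I := by
  obtain ⟨Ψ, hΨ, Ψ', hΨ', h1, h2, h3⟩ := exists_transfer (X := X) hP m
  have h5 := KOp.map_span hΨ' hβ
  rw [add_zero] at h5
  refine ⟨Ψ' β, h5, ⟨fun h => ?_, fun h => NumTriv.op hΨ' h⟩, fun I g => ?_⟩
  · have h6 := NumTriv.op hΨ h
    have h7 := congrArg (fun F => F β) h3
    beta_reduce at h7
    rw [LinearMap.comp_apply, LinearMap.smul_apply, LinearMap.id_apply] at h7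
    rw [h7] at h6
    intro j g hg
    have h8 := h6 j g hg
    rw [smul_mul_assoc, map_smul, smul_eq_mul] at h8
    exact (mul_eq_zero.1 h8).resolve_left (tr_one_ne hP)
  · have h6 := congrArg (fun F => F β) (h2 (fun i => e.coord (I i)) g)
    beta_reduce at h6
    rw [LinearMap.comp_apply, LinearMap.smul_apply, smul_eq_mul] at h6
    exact h6

end Pool.Agent.Run7.h192.Poly
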