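import Pool.Agent.Run7.h192.Poly.GeoB

/-!
# The weights of the coordinates
-/

set_option linter.unusedVariables false
set_option linter.unusedSectionVars false

open CategoryTheory AlgebraicGeometry CategoryTheory.Limits TensorProduct Function

universe u v

namespace Pool.Agent.Run7.h192.Poly

open Pool.Agent.H914 Pool.Agent.W534 Pool.Agent.Y163 VarClass Obj WeilCohomology
  Module Pool.Agent.R908 Pool.Agent.R940 Pool.Agent.N180.Cf

variable {k : Type u} [Field k] {𝒱 : VarClass k} {ops : CycleOps 𝒱}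
  {W : WeilCohomology.{u, v} ops} {X Y Z P : 𝒱.Obj}

section Weights

variable {κ₀ : W.H X →ₗ[W.K] W.H X} (hκ : IsSign W X κ₀) {U : ℝ → Submodule W.K (W.H X)}
  {N : ℕ} (hU : Good W X {P} N U) {l : ℕ} (e : Module.Basis (Fin l) W.K (W.H X))
  (w : Fin l → ℝ) (he : ∀ i, e i ∈ U (w i))
  (hw : ∀ t, ∀ x ∈ U t, ∀ i, e.coord i x ≠ 0 → t ≤ w i)

include hκ hU hw

/-- The weights of the coordinates of the algebraic classes. -/
lemma wt_nonneg (hP : finrank W.K (W.H P) = 1) {n : ℕ} (hn : n ≤ N)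
    {f : (Fin n → Fin l) → W.K} (hf : f ∈ SS e P n) : ∀ I, f I ≠ 0 → 0 ≤ wt w I := by
  choose u hu hbu using exists_dual hκ hU e w hw
  induction hf using Submodule.span_induction with
  | mem f hf =>
    obtain ⟨Y, g, c, α, hY, hc, hα, rfl⟩ := hf
    intro I hI
    have h1 := hU.fform n hn _ (GF_gen ⟨Y, 0, g, c, α, hY,
      par_zero (finrank_prodOf hP hY) g, hα, fun h => h.elim, rfl⟩)
      (fun i => u (I i)) (fun i => - w (I i)) (fun i => hu (I i)) (by
        have h2 : (fun i => bil W X (u (I i))) = fun i => e.coord (I i) := by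
          funext i
          exact hbu _
        rw [h2]
        exact hI)
    rw [Finset.sum_neg_distrib] at h1
    rw [wt]
    linarith
  | zero => exact fun I hI => absurd rfl hI
  | add f f' _ _ h1 h2 =>
    intro I hI
    by_cases h3 : f I = 0
    · exact h2 I (fun h4 => hI (by rw [Pi.add_apply, h3, h4, add_zero]))
    · exact h1 I h3
  | smul c f _ h1 =>
    intro I hI
    exact h1 I (right_ne_zero_of_mul hI)

/-- The weights of the coordinates of the numerically trivial classes. -/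
lemma wt_pos (hP : finrank W.K (W.H P) = 1) {n : ℕ} (hn : n ≤ N) {c : ℤ}
    {α : W.H (pX X P n)} (hα : α ∈ spanCycles W (pX X P n) c) (hnum : NumTriv W _ α)
    (g : W.H P →ₗ[W.K] W.K) (I : Fin n → Fin l)
    (hI : msl W n (fun i => e.coord (I i)) g α ≠ 0) : 0 < wt w I := by
  choose u hu hbu using exists_dual hκ hU e w hw
  have h1 := hU.tform n hn _ (GF_gen ⟨P, 0, g, c, α, IsProductOf.base (Set.mem_singleton P),
    par_zero hP g, hα, fun _ => hnum, rfl⟩)
    (fun i => u (I i)) (fun i => - w (I i)) (fun i => hu (I i)) (by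
      have h2 : (fun i => bil W X (u (I i))) = fun i => e.coord (I i) := by
        funext i
        exact hbu _
      rw [h2]
      exact hI)
  rw [Finset.sum_neg_distrib] at h1
  rw [wt]
  linarith

include he

/-- Classes with coordinates of positive weight are numerically trivial. -/
lemma num_of_wt (hP : finrank W.K (W.H P) = 1) {n : ℕ} (hn : n ≤ N)
    {α : W.H (pX X P n)} (hα : ∀ (g : W.H P →ₗ[W.K] W.K) (I : Fin n → Fin l),
      msl W n (fun i => e.coord (I i)) g α ≠ 0 → 0 < wt w I) : NumTriv W _ α := by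
  obtain ⟨s, hs, hs1⟩ := exists_pos_le (fun I : Fin n → Fin l => ∑ i, w (I i))
  refine num_of_pos hκ hU hn (IsProductOf.base (Set.mem_singleton P)) hs
    (mem_prodFil e w he n s α fun I hI => ?_)
  obtain ⟨q, g, hq, hg⟩ := exists_par hI
  exact hs1 I (hα g I (by rw [msl_msr]; exact hg))

/-- The leading words of weight zero. -/
noncomputable def U0 (P : 𝒱.Obj) (n : ℕ) : Finset (Fin n → Fin l) :=
  by classical exact Finset.univ.filter fun u => wt w u = 0 ∧ ∃ f ∈ SS e P n, IsLead w f u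

end Weights

lemma mem_U0 {l : ℕ} {e : Module.Basis (Fin l) W.K (W.H X)} {w : Fin l → ℝ} {n : ℕ}
    {u : Fin n → Fin l} (hu : u ∈ U0 e w P n) : wt w u = 0 ∧ ∃ f ∈ SS e P n, IsLead w f u := by
  classical
  rw [U0] at hu
  exact (Finset.mem_filter.1 hu).2

/-- The restriction to the words of weight zero. -/
noncomputable def res0 (K : Type*) [Field K] {l n : ℕ} (w : Fin l → ℝ) :
    ((Fin n → Fin l) → K) →ₗ[K] ((Fin n → Fin l) → K) := by
  classical
  exact LinearMap.pi fun I => if wt w I = 0 then LinearMap.proj I else 0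

lemma res0_apply {K : Type*} [Field K] {l n : ℕ} (w : Fin l → ℝ) (f : (Fin n → Fin l) → K)
    (I : Fin n → Fin l) : (res0 K w f I ≠ 0 ↔ wt w I = 0 ∧ f I ≠ 0) := by
  classical
  rw [res0, LinearMap.pi_apply]
  by_cases h : wt w I = 0
  · rw [if_pos h, LinearMap.proj_apply]
    exact ⟨fun h1 => ⟨h, h1⟩, fun h1 => h1.2⟩
  · rw [if_neg h, LinearMap.zero_apply]
    exact ⟨fun h1 => absurd rfl h1, fun h1 => absurd h1.1 h⟩

/-- The separation of classes by coordinates. -/
lemma crp_inj {l : ℕ} (e : Module.Basis (Fin l) W.K (W.H X)) : ∀ (m : ℕ) (β : W.H (pw X m)),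
    crp e m β = 0 → β = 0 := by
  intro m
  induction m with
  | zero =>
    intro β h
    change W.H X at β
    have h1 : e.repr β = 0 := by
      ext i
      exact congrFun h (fun _ => i)
    exact (map_eq_zero_iff _ e.repr.injective).1 h1
  | succ m ih =>
    intro β h
    change W.H (X.prod (pw X m)) at β
    rw [slice_sum e β]
    refine Finset.sum_eq_zero fun j _ => ?_
    have h1 : sl W (e.coord j) β = 0 := ih _ (by
      funext I
      exact congrFun h (Fin.cons j I : Fin (m + 1 + 1) → Fin l))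
    rw [h1, map_zero, mul_zero]
    rfl


section Count

variable {κ₀ : W.H X →ₗ[W.K] W.H X} (hκ : IsSign W X κ₀) {U : ℝ → Submodule W.K (W.H X)}
  {N : ℕ} (hU : Good W X {P} N U) {l : ℕ} (e : Module.Basis (Fin l) W.K (W.H X))
  (w : Fin l → ℝ) (he : ∀ i, e i ∈ U (w i))
  (hw : ∀ t, ∀ x ∈ U t, ∀ i, e.coord i x ≠ 0 → t ≤ w i)

include hκ hU hw he

/-- The number of leading words of weight zero. -/
lemma mrank_le_card (hP : finrank W.K (W.H P) = 1) {n : ℕ} (hn : 2 * n + 2 ≤ N) :
    mrank W X n ≤ (U0 e w P (2 * n + 2)).card := by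
  classical
  set c : ℕ := (n + 1) * X.dim with hc
  have hc2 : 2 * c = (2 * n + 1 + 1) * X.dim := by rw [hc]; ring
  set L : spanCycles W (pw X (2 * n + 1)) (c : ℤ) →ₗ[W.K] ((Fin (2 * n + 2) → Fin l) → W.K) :=
    res0 W.K w ∘ₗ crp e (2 * n + 1) ∘ₗ (spanCycles W (pw X (2 * n + 1)) (c : ℤ)).subtype with hL
  have hmem : ∀ β : spanCycles W (pw X (2 * n + 1)) (c : ℤ),
      crp e (2 * n + 1) β ∈ SS e P (2 * n + 2) := fun β => crp_mem e hP hc2 β.2
  have hker : LinearMap.ker L ≤ LinearMap.ker (pair W (pw X (2 * n + 1)) c c) := by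
    intro β hβ
    rw [LinearMap.mem_ker] at hβ ⊢
    obtain ⟨α, hα, h1, h2⟩ := crp_num (P := P) e hP β.2
    have h3 : NumTriv W _ α := by
      refine num_of_wt hκ hU e w he hw hP hn fun g I hI => ?_
      have h4 := h2 I g
      rw [h4] at hI
      have h5 := right_ne_zero_of_mul hI
      have h6 := wt_nonneg hκ hU e w hw hP hn (hmem β) I h5
      refine lt_of_le_of_ne h6 fun h7 => ?_
      have h8 : L β I ≠ 0 := (res0_apply w (crp e (2 * n + 1) (β : W.H _)) I).2 ⟨h7.symm, h5⟩
      exact h8 (congrFun hβ I)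
    have h4 := h1.1 h3
    apply LinearMap.ext
    intro γ
    rw [pair_apply, LinearMap.zero_apply]
    exact h4 _ _ γ.2
  have hrank : kRank W (pw X (2 * n + 1)) c c ≤ finrank W.K (LinearMap.range L) := by
    have h1 := LinearMap.finrank_range_add_finrank_ker L
    have h2 := LinearMap.finrank_range_add_finrank_ker (pair W (pw X (2 * n + 1)) c c)
    have h3 := Submodule.finrank_mono hker
    rw [kRank]
    omega
  rw [mrank_eq, ← hc]
  refine hrank.trans ((finrank_le_lead _ (rho w)).trans ?_)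
  rw [← Set.ncard_coe_finset]
  refine Set.ncard_le_ncard ?_ (Set.toFinite _)
  rintro x ⟨f, ⟨β, rfl⟩, hx, hmin⟩
  have h1 := (res0_apply w (crp e (2 * n + 1) (β : W.H _)) x).1 hx
  refine Finset.mem_coe.2 (Finset.mem_filter.2 ⟨Finset.mem_univ _, h1.1, _, hmem β, h1.2, ?_⟩)
  intro y hy
  rcases eq_or_lt_of_le (wt_nonneg hκ hU e w hw hP hn (hmem β) y hy) with h2 | h2
  · exact hmin y ((res0_apply w (crp e (2 * n + 1) (β : W.H _)) y).2 ⟨h2.symm, hy⟩)
  · rw [rho_le, h1.1]
    exact Or.inl h2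

omit he in
/-- A numerically trivial class gives a leading word of positive weight. -/
lemma exists_lead_pos (hP : finrank W.K (W.H P) = 1) {m : ℕ} (hm : 2 * m + 2 ≤ N)
    {β : W.H (pw X (2 * m + 1))}
    (hβ : β ∈ spanCycles W (pw X (2 * m + 1)) (((m + 1) * X.dim : ℕ) : ℤ)) (h0 : β ≠ 0)
    (hnum : NumTriv W _ β) :
    ∃ z ∈ SS e P (2 * m + 2), ∃ y, IsLead w z y ∧ 0 < wt w y := by
  have hmem : crp e (2 * m + 1) β ∈ SS e P (2 * m + 2) := crp_mem e hP (by ring) hβ
  obtain ⟨y, hy, hmin, -⟩ := exists_lead (rho w) hmem (fun h => h0 (crp_inj e _ _ h))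
  refine ⟨_, hmem, y, ⟨hy, hmin⟩, ?_⟩
  obtain ⟨α, hα, h1, h2⟩ := crp_num (P := P) e hP hβ
  refine wt_pos hκ hU e w hw hP hm hα (h1.2 hnum) ((W.tr P 1)⁻¹ • W.tr P) y ?_
  rw [h2, LinearMap.smul_apply, smul_eq_mul, inv_mul_cancel₀ (tr_one_ne hP), one_mul]
  exact hy

end Count

end Pool.Agent.Run7.h192.Poly
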