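import Pool.Agent.Run7.h192.Poly.GeoC

/-!
# The polynomial law for homological and numerical equivalence
-/

set_option linter.unusedVariables false
set_option linter.unusedSectionVars false

open CategoryTheory AlgebraicGeometry CategoryTheory.Limits TensorProduct Function

universe u v

namespace Pool.Agent.Run7.h192.Poly

open Pool.Agent.H914 Pool.Agent.W534 Pool.Agent.Y163 VarClass Obj WeilCohomology
  Module Pool.Agent.R908 Pool.Agent.R940 Pool.Agent.N180.Cf

variable {k : Type u} [Field k] {𝒱 : VarClass k} {ops : CycleOps 𝒱}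
  {W : WeilCohomology.{u, v} ops} {X Y Z P : 𝒱.Obj}

/-- The ratio of `h n` and `r n` is at least `√((n + 1) / (b ^ 3 * log (n + 2))) / (22 * a)`. -/
def RootTimes (b a : ℕ) (h r : ℕ → ℕ) : Prop :=
  ∀ n : ℕ, Real.sqrt ((n + 1) / ((b : ℝ) ^ 3 * Real.log (n + 2))) / (22 * a) * r n ≤ h n

/-- The choice of the number of layers. -/
lemma choice {b κ : ℕ} (hb : 0 < b) (hκ : 0 < κ) (n : ℕ) : ∃ J : ℕ,
    Real.sqrt ((n + 1) / ((b : ℝ) ^ 3 * Real.log (n + 2))) / (4 * κ) ≤ J + 1 ∧ J * κ ≤ n ∧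
    (J * (2 * κ : ℕ) : ℝ) * (4 * b * (J * (2 * κ : ℕ)) *
      (1 + Real.log (2 * ((n : ℝ) + 2) ^ (b ^ 2))) + 1) ≤ ((2 * n + 2 : ℕ) : ℝ) := by
  have hbR : (1 : ℝ) ≤ b := by exact_mod_cast hb
  have hκR : (1 : ℝ) ≤ κ := by exact_mod_cast hκ
  have hn0 : (0 : ℝ) ≤ n := Nat.cast_nonneg _
  have hl2 := Real.log_two_gt_d9
  have hl2' := Real.log_two_lt_d9
  have hL2 : Real.log 2 ≤ Real.log (n + 2) := Real.log_le_log (by norm_num) (by linarith)
  set L := Real.log ((n : ℝ) + 2) with hL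
  have hL0 : 0 < L := by linarith
  have hb3 : (1 : ℝ) ≤ (b : ℝ) ^ 3 := one_le_pow₀ hbR
  set s := Real.sqrt ((n + 1) / ((b : ℝ) ^ 3 * L)) with hs
  have hs0 : 0 ≤ s := Real.sqrt_nonneg _
  have hs2 : s ^ 2 * ((b : ℝ) ^ 3 * L) = n + 1 := by
    rw [hs, Real.sq_sqrt (by positivity), div_mul_cancel₀ _ (by positivity)]
  refine ⟨⌊s / (4 * κ)⌋₊, (Nat.lt_floor_add_one _).le, ?_, ?_⟩
  all_goals
    set J := ⌊s / (4 * κ)⌋₊ with hJ
    have hJ1 : (J : ℝ) * (4 * κ) ≤ s := by
      have h1 : (J : ℝ) ≤ s / (4 * κ) := Nat.floor_le (by positivity)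
      rwa [le_div_iff₀ (by positivity)] at h1
    have hJ2 : 16 * ((J : ℝ) * κ) ^ 2 * ((b : ℝ) ^ 3 * L) ≤ n + 1 := by
      rw [← hs2]
      apply mul_le_mul_of_nonneg_right _ (by positivity)
      calc 16 * ((J : ℝ) * κ) ^ 2 = ((J : ℝ) * (4 * κ)) ^ 2 := by ring
        _ ≤ s ^ 2 := pow_le_pow_left₀ (by positivity) hJ1 2
  · rcases Nat.eq_zero_or_pos J with h0 | h0
    · rw [h0, zero_mul]
      exact Nat.zero_le _
    · have hJR : (1 : ℝ) ≤ J := by exact_mod_cast h0
      have h1 : (1 : ℝ) ≤ (J : ℝ) * κ := by nlinarith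
      have h2 : (J : ℝ) * κ ≤ ((J : ℝ) * κ) ^ 2 := by nlinarith
      have h3 : 0.69 ≤ (b : ℝ) ^ 3 * L := by nlinarith
      have h4 : 16 * ((J : ℝ) * κ) ^ 2 * 0.69 ≤ n + 1 := by
        refine le_trans ?_ hJ2
        exact mul_le_mul_of_nonneg_left h3 (by positivity)
      have h5 : (J : ℝ) * κ ≤ n := by nlinarith
      exact_mod_cast h5
  · rcases Nat.eq_zero_or_pos J with h0 | h0
    · rw [h0]
      push_cast
      rw [zero_mul, zero_mul]
      positivity
    · have hJR : (1 : ℝ) ≤ J := by exact_mod_cast h0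
      have h1 : (1 : ℝ) ≤ (J : ℝ) * κ := by nlinarith
      have h11 : (1 : ℝ) ≤ ((J : ℝ) * κ) ^ 2 := one_le_pow₀ h1
      have hb2 : (1 : ℝ) ≤ (b : ℝ) ^ 2 := one_le_pow₀ hbR
      have h3 : 0.69 ≤ (b : ℝ) ^ 3 * L := by nlinarith
      have h4 : 16 * ((J : ℝ) * κ) ^ 2 * 0.69 ≤ n + 1 := by
        refine le_trans ?_ hJ2
        exact mul_le_mul_of_nonneg_left h3 (by positivity)
      have h5 : (6 : ℝ) ≤ n := by nlinarith
      have h6 : 3 * Real.log 2 ≤ L := by
        rw [hL]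
        have h7 : (3 : ℝ) * Real.log 2 = Real.log (2 ^ 3) := by
          rw [Real.log_pow]
          norm_num
        rw [h7]
        exact Real.log_le_log (by norm_num) (by linarith)
      have hlog : Real.log (2 * ((n : ℝ) + 2) ^ (b ^ 2)) = Real.log 2 + (b : ℝ) ^ 2 * L := by
        rw [Real.log_mul (by norm_num) (by positivity), Real.log_pow]
        push_cast
        rfl
      rw [hlog]
      set M : ℝ := (J : ℝ) * ((2 * κ : ℕ) : ℝ) with hM
      have hM2 : M ^ 2 = 4 * ((J : ℝ) * κ) ^ 2 := by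
        rw [hM]
        push_cast
        ring
      have hM1 : 1 ≤ M := by
        rw [hM]
        push_cast
        nlinarith
      have hMM : M ≤ M ^ 2 := by nlinarith
      have h7 : 1 + (Real.log 2 + (b : ℝ) ^ 2 * L) ≤ 1.82 * ((b : ℝ) ^ 2 * L) := by
        have h8 : L ≤ (b : ℝ) ^ 2 * L := le_mul_of_one_le_left hL0.le hb2
        linarith
      have h8 : 4 * M ^ 2 * ((b : ℝ) ^ 3 * L) ≤ n + 1 := by
        rw [hM2]
        linarith
      have h9 : 4 * (b : ℝ) * M * (1 + (Real.log 2 + (b : ℝ) ^ 2 * L)) * M ≤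
          1.82 * (n + 1) := by
        calc 4 * (b : ℝ) * M * (1 + (Real.log 2 + (b : ℝ) ^ 2 * L)) * M
            = (4 * (b : ℝ) * M ^ 2) * (1 + (Real.log 2 + (b : ℝ) ^ 2 * L)) := by ring
          _ ≤ (4 * (b : ℝ) * M ^ 2) * (1.82 * ((b : ℝ) ^ 2 * L)) :=
              mul_le_mul_of_nonneg_left h7 (by positivity)
          _ = 1.82 * (4 * M ^ 2 * ((b : ℝ) ^ 3 * L)) := by ring
          _ ≤ _ := mul_le_mul_of_nonneg_left h8 (by norm_num)
      have h10 : M ≤ 0.18 * (n + 1) := by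
        have h12 : 2 ≤ (b : ℝ) ^ 3 * L := by nlinarith
        have h13 : 4 * M ^ 2 * 2 ≤ n + 1 :=
          le_trans (mul_le_mul_of_nonneg_left h12 (by positivity)) h8
        linarith
      push_cast
      calc M * (4 * b * M * (1 + (Real.log 2 + (b : ℝ) ^ 2 * L)) + 1)
          = 4 * (b : ℝ) * M * (1 + (Real.log 2 + (b : ℝ) ^ 2 * L)) * M + M := by ring
        _ ≤ 1.82 * ((n : ℝ) + 1) + 0.18 * ((n : ℝ) + 1) := add_le_add h9 h10
        _ = 2 * (n : ℝ) + 2 := by ring

/-- The ratios of the ranks. -/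
lemma numRank_succ_le (hX : par (W.isInternal X) ∈ KOp W X X 0) (n : ℕ) :
    mrank W X (n + 1) ≤ finrank W.K (W.H X) ^ 2 * mrank W X n := by
  set L := AlgebraicClosure W.K with hL
  have hcl : IsAlgClosed (baseW W L).K := inferInstanceAs (IsAlgClosed (AlgebraicClosure W.K))
  have h := mrank_succ_le (W := baseW W L) (par_mem_base L hX) n
  rw [← numRank_sq (W := baseW W L), ← numRank_sq (W := baseW W L), finrank_baseW] at h
  rw [← numRank_sq (W := W), ← numRank_sq (W := W)]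
  exact h

lemma mrank_le_pow (hX : par (W.isInternal X) ∈ KOp W X X 0) (n m : ℕ) :
    mrank W X (n + m) ≤ finrank W.K (W.H X) ^ (2 * m) * mrank W X n := by
  induction m with
  | zero => simp
  | succ m ih =>
    calc mrank W X (n + (m + 1)) ≤ finrank W.K (W.H X) ^ 2 * mrank W X (n + m) :=
          numRank_succ_le hX (n + m)
      _ ≤ finrank W.K (W.H X) ^ 2 * (finrank W.K (W.H X) ^ (2 * m) * mrank W X n) :=
          Nat.mul_le_mul_left _ ih
      _ = _ := by ring

/-- The powers and the squares of the powers. -/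
lemma algRank_pw_le (n : ℕ) : finrank W.K
    (spanCycles W (pw X (2 * n + 1)) (((n + 1) * X.dim : ℕ) : ℤ)) ≤
      algRank W (sq X n) ((n + 1) * X.dim) := by
  have e : sq X n ≅ pw X (2 * n + 1) :=
    pwIso X n n ≪≫ eqToIso (by rw [show n + 1 + n = 2 * n + 1 by ring])
  have hinj : Function.Injective (W.map e.hom).toLinearMap := by
    intro a b h
    have h1 : W.map e.hom a = W.map e.hom b := h
    have h2 := congrArg (W.map e.inv) h1
    rwa [← W.map_comp, ← W.map_comp, e.inv_hom_id, W.map_id, W.map_id] at h2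
  have h1 : (spanCycles W (pw X (2 * n + 1)) (((n + 1) * X.dim : ℕ) : ℤ)).map
      (W.map e.hom).toLinearMap ≤ spanCycles W (sq X n) (((n + 1) * X.dim : ℕ) : ℤ) := by
    rintro _ ⟨a, ha, rfl⟩
    exact span_map _ ha
  rw [(Submodule.equivMapOfInjective _ hinj _).finrank_eq]
  exact Submodule.finrank_mono h1


lemma numTriv_of_corr {U : 𝒱.Obj} {c : W.H (U.prod U)}
    (hc : c ∈ spanCycles W (U.prod U) U.dim)
    (h : ∀ d ∈ spanCycles W (U.prod U) U.dim, W.tr (U.prod U) (c * d) = 0) :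
    NumTriv W (U.prod U) c := by
  intro j g hg
  by_cases hj : j = U.dim
  · exact h g (by rw [← hj]; exact hg)
  · induction hg using Submodule.span_induction with
    | mem g hg =>
      obtain ⟨q, hq, w, hw, rfl⟩ := hg
      exact W.tr_eq_zero (W.mul_mem (span_gr hc) (W.cl_mem hw)) (by
        rw [dim_prod]
        omega)
    | zero => rw [mul_zero, map_zero]
    | add x y _ _ hx hy => rw [mul_add, map_add, hx, hy, add_zero]
    | smul r x _ hx => rw [mul_smul_comm, map_smul, hx, smul_zero]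

/-- The failure of D gives a numerically trivial class in the middle degree. -/
lemma exists_fail (hX : par (W.isInternal X) ∈ KOp W X X 0) {D : X.Cycles} (hD : X.IsCyc 1 D)
    (hbig : Big ops X D) {κ : ℕ} (h : ¬ HomEqNum W (pw X κ)) :
    ∃ β ∈ spanCycles W (pw X (2 * κ + 1)) (((κ + 1) * X.dim : ℕ) : ℤ), β ≠ 0 ∧
      NumTriv W _ β := by
  have htr : W.tr X (W.cl X D ^ X.dim) ≠ 0 := hbig.tr hD
  obtain ⟨E, hE, hE2⟩ := exists_big hD htr κ
  obtain ⟨ν, hν, hν0⟩ := exists_rad (par_pw_mem hX κ) hE hE2 h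
  obtain ⟨c, hc, rfl⟩ := mem_KOp_iff.1 (mem_KAlg.1 hν.1)
  rw [add_zero] at hc
  have h1 := num_of_mem_rad (par_pw_mem hX κ) hc hν
  have h2 := numTriv_of_corr hc h1
  have e : sq X κ ≅ pw X (2 * κ + 1) :=
    pwIso X κ κ ≪≫ eqToIso (by rw [show κ + 1 + κ = 2 * κ + 1 by ring])
  refine ⟨W.map e.inv c, ?_, fun h3 => ?_, NumTriv.op (KOp.mapHom e.inv) h2⟩
  · have h3 := span_map e.inv hc
    rw [dim_pw] at h3
    exact h3
  · apply hν0
    have h4 := congrArg (W.map e.hom) h3
    rw [← W.map_comp, e.hom_inv_id, W.map_id, map_zero] at h4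
    have h5 : c = 0 := h4
    rw [h5, corr_zero]

/-- **The polynomial law.** -/
theorem poly_law {κ₀ : W.H X →ₗ[W.K] W.H X} (hκ : IsSign W X κ₀)
    (hP : finrank W.K (W.H P) = 1) {D : X.Cycles} (hD : X.IsCyc 1 D) (hbig : Big ops X D)
    (κ : ℕ) (h : ¬ HomEqNum W (pw X κ)) :
    RootTimes (betti W X) (κ + 1) (fun n => algRank W (sq X n) ((n + 1) * X.dim))
      (fun n => numRank ops (sq X n) ((n + 1) * X.dim)) := by
  intro n
  have hX : par (W.isInternal X) ∈ KOp W X X 0 := by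
    have h1 : par (W.isInternal X) = κ₀ := by
      apply LinearMap.ext
      intro x
      refine gr_induction (W.isInternal X) (p := fun x => par (W.isInternal X) x = κ₀ x) ?_ ?_ x
      · intro i a ha
        rw [hκ.apply i a ha]
        exact scal_apply _ _ ha
      · intro a b ha hb
        rw [map_add, map_add, ha, hb]
    rw [h1]
    exact hκ.mem
  have htr : W.tr X (W.cl X D ^ X.dim) ≠ 0 := hbig.tr hD
  have hH : 0 < finrank W.K (W.H X) := by
    have : Nontrivial (W.H X) := by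
      by_contra hcon
      rw [not_nontrivial_iff_subsingleton] at hcon
      apply htr
      rw [Subsingleton.elim (W.cl X D ^ X.dim) 0, map_zero]
    exact finrank_pos
  obtain ⟨β, hβ, hβ0, hβn⟩ := exists_fail hX hD hbig h
  obtain ⟨U, hU, -⟩ := exists_good hκ (𝒴 := {P})
    (fun Y hY => homEqNum_of_one (finrank_prodOf hP hY)) (2 * n + 2 * κ + 2)
  obtain ⟨l, e, w, he, hw⟩ := exists_adapted U hU.jumps
  have hl : l = finrank W.K (W.H X) := by
    have h1 := Module.finrank_eq_card_basis e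
    rw [Fintype.card_fin] at h1
    exact h1.symm
  obtain ⟨z, hz, y, hy, hy0⟩ := exists_lead_pos hκ hU e w hw hP (m := κ) (by omega) hβ hβ0 hβn
  obtain ⟨J, hJ1, hJ2, hJ3⟩ := choice hH (Nat.succ_pos κ) n
  set r : ℝ := (mrank W X n : ℝ) with hr
  have hgrow := growth_any hX n
  rw [numRank_sq (W := W)] at hgrow
  have h2κ : 2 * κ + 2 = 2 * (κ + 1) := by ring
  have hlay := layers w (S := SS e P) (SS_mul e hP hκ) (one_mem_SS e hP)
    (by rw [Fintype.card_fin, hl]; exact hH) (κ := 2 * κ + 2) (by omega) hz hy hy0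
    (N := 2 * n + 2) (J := J) (U0 e w P)
    (by
      intro j hj u hu
      exact mem_U0 hu)
    (r := r) (P := ((n : ℝ) + 2) ^ (finrank W.K (W.H X) ^ 2))
    (one_le_pow₀ (by
      have : (0 : ℝ) ≤ n := Nat.cast_nonneg _
      linarith))
    (by
      intro j hj
      have h1 : j * (κ + 1) ≤ n := (Nat.mul_le_mul_right _ hj).trans hJ2
      have h2 : 2 * n + 2 - j * (2 * κ + 2) = 2 * (n - j * (κ + 1)) + 2 := by
        have h3 : j * (2 * κ + 2) = 2 * (j * (κ + 1)) := by ring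
        omega
      rw [h2]
      have h4 := mrank_le_card hκ hU e w he hw hP (n := n - j * (κ + 1)) (by omega)
      have h5 := mrank_le_pow hX (n - j * (κ + 1)) (j * (κ + 1))
      rw [Nat.sub_add_cancel h1] at h5
      have h6 : mrank W X n ≤ l ^ (j * (2 * κ + 2)) * (U0 e w P (2 * (n - j * (κ + 1)) + 2)).card := by
        have h7 : l ^ (j * (2 * κ + 2)) = finrank W.K (W.H X) ^ (2 * (j * (κ + 1))) := by
          rw [show j * (2 * κ + 2) = 2 * (j * (κ + 1)) by ring]
          exact congrArg (fun t => t ^ (2 * (j * (κ + 1)))) hl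
        rw [h7]
        exact h5.trans (Nat.mul_le_mul_left _ h4)
      rw [Fintype.card_fin, hr]
      exact_mod_cast h6)
    (by
      rw [Fintype.card_fin, hl, hr]
      have h1 : finrank W.K (W.H X) ^ (2 * n + 2) ≤
          (n + 2) ^ (finrank W.K (W.H X) ^ 2) * mrank W X n := by
        calc finrank W.K (W.H X) ^ (2 * n + 2) = (finrank W.K (W.H X) ^ 2) ^ (n + 1) := by
              rw [← pow_mul]
              congr 1
          _ ≤ _ := by
              rw [mul_comm]
              exact hgrow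
      exact_mod_cast h1)
    (by
      rw [Fintype.card_fin, hl, h2κ]
      exact hJ3)
  have hdim : (finrank W.K (SS e P (2 * n + 2)) : ℝ) ≤ algRank W (sq X n) ((n + 1) * X.dim) := by
    exact_mod_cast (finrank_SS_le e hP n).trans (algRank_pw_le n)
  have he1 := Real.exp_one_lt_d9
  have hr0 : 0 ≤ r := Nat.cast_nonneg _
  have hs := mul_le_mul_of_nonneg_right hJ1 hr0
  have hfin : Real.sqrt ((n + 1) / ((finrank W.K (W.H X) : ℝ) ^ 3 * Real.log (n + 2))) /
      (4 * ((κ + 1 : ℕ) : ℝ)) * r ≤ 5.5 * algRank W (sq X n) ((n + 1) * X.dim) := by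
    refine hs.trans (hlay.trans ?_)
    have h1 : (0 : ℝ) ≤ algRank W (sq X n) ((n + 1) * X.dim) := Nat.cast_nonneg _
    have h2 : (0 : ℝ) < Real.exp 1 := Real.exp_pos 1
    nlinarith
  beta_reduce
  rw [numRank_sq (W := W), R940.betti]
  have hk0 : (0 : ℝ) < ((κ + 1 : ℕ) : ℝ) := by exact_mod_cast Nat.succ_pos κ
  set q := Real.sqrt ((n + 1) / ((finrank W.K (W.H X) : ℝ) ^ 3 * Real.log (n + 2)))
  have h3 : q / (4 * ((κ + 1 : ℕ) : ℝ)) * r = 5.5 * (q / (22 * ((κ + 1 : ℕ) : ℝ)) * r) := by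
    field_simp
    ring
  rw [h3] at hfin
  linarith

end Pool.Agent.Run7.h192.Poly
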