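import Pool.Agent.Run7.h192.Poly.Merge
import Pool.Agent.Run7.h192.Poly.Count

/-!
# Many layers
-/

set_option linter.unusedSectionVars false

namespace Pool.Agent.Run7.h192.Poly

open Module Finset

/-- Concatenation. -/
lemma isMerge_std {n m N : ℕ} (h : n + m = N) :
    IsMerge (fun i : Fin n => (⟨i, by omega⟩ : Fin N)) (fun j : Fin m => (⟨n + j, by omega⟩ : Fin N))
    where
  mono_left := fun i j hij => hij
  mono_right := fun i j hij => by
    have : (i : ℕ) < j := hij
    exact Fin.mk_lt_mk.2 (by omega)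
  disj := fun i j hij => by
    have h1 := congrArg Fin.val hij
    simp only at h1
    omega
  cover := fun p => by
    by_cases hp : (p : ℕ) < n
    · exact Or.inl ⟨⟨p, hp⟩, rfl⟩
    · refine Or.inr ⟨⟨p - n, by omega⟩, Fin.ext ?_⟩
      simp only
      omega

/-- The positions in `m` blocks of `B` letters. -/
def pos {m B r N : ℕ} (h : m * B + r = N) : (Fin m × Fin B) ⊕ Fin r ≃ Fin N :=
  (Equiv.sumCongr finProdFinEquiv (Equiv.refl (Fin r))).trans
    (finSumFinEquiv.trans (finCongr h))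

lemma pos_val {m B r N : ℕ} (h : m * B + r = N) (k : Fin m) (s : Fin B) :
    (pos h (Sum.inl (k, s)) : ℕ) = s + B * k := rfl

lemma pos_mono {m B r N : ℕ} (h : m * B + r = N) (t : Fin m → Fin B) :
    StrictMono fun k => pos h (Sum.inl (k, t k)) := by
  intro k k' hk
  rw [Fin.lt_def, pos_val, pos_val]
  have h1 : (k : ℕ) + 1 ≤ k' := hk
  have h2 : (t k : ℕ) < B := (t k).2
  calc (t k : ℕ) + B * k < B + B * k := by omega
    _ = B * (k + 1) := by ring
    _ ≤ B * k' := Nat.mul_le_mul_left _ h1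
    _ ≤ t k' + B * k' := Nat.le_add_left _ _

/-- The complementary positions. -/
lemma exists_compl {m n N : ℕ} (hN : n + m = N) (τ : Fin m → Fin N) (hτ : StrictMono τ) :
    ∃ σ : Fin n → Fin N, IsMerge σ τ := by
  classical
  have hc : (univ \ univ.image τ).card = n := by
    rw [card_sdiff_of_subset (subset_univ _), card_image_of_injective _ hτ.injective, card_univ,
      card_univ, Fintype.card_fin, Fintype.card_fin]
    omega
  refine ⟨(univ \ univ.image τ).orderEmbOfFin hc, OrderEmbedding.strictMono _, hτ, ?_, ?_⟩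
  · intro i j h
    have h1 := Finset.orderEmbOfFin_mem (univ \ univ.image τ) hc i
    rw [h, mem_sdiff] at h1
    exact h1.2 (mem_image_of_mem _ (mem_univ j))
  · intro p
    by_cases hp : p ∈ univ.image τ
    · obtain ⟨j, -, hj⟩ := mem_image.1 hp
      exact Or.inr ⟨j, hj⟩
    · left
      have h1 : p ∈ Set.range ((univ \ univ.image τ).orderEmbOfFin hc) := by
        rw [Finset.range_orderEmbOfFin]
        exact mem_coe.2 (mem_sdiff.2 ⟨mem_univ _, hp⟩)
      exact h1

section Layers

variable {K : Type*} [Field K] {ι : Type*} [Fintype ι] [LinearOrder ι] (w : ι → ℝ)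
  {S : ∀ n, Submodule K ((Fin n → ι) → K)}

/-- The family `S` is closed under all products. -/
def MulClosed (S : ∀ n, Submodule K ((Fin n → ι) → K)) : Prop :=
  ∀ {n m N : ℕ} {σ : Fin n → Fin N} {τ : Fin m → Fin N}, IsMerge σ τ →
    ∀ f ∈ S n, ∀ g ∈ S m, mulAt σ τ f g ∈ S N

/-- The powers of an element with a leading word of positive weight. -/
lemma exists_pow (hmul : MulClosed S) (h1 : (fun _ => 1) ∈ S 0) {κ : ℕ}
    {z : (Fin κ → ι) → K} (hz : z ∈ S κ) {y : Fin κ → ι} (hy : IsLead w z y) (j : ℕ) :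
    ∃ g ∈ S (j * κ), ∃ y' : Fin (j * κ) → ι, IsLead w g y' ∧ wt w y' = j * wt w y := by
  induction j with
  | zero =>
    have h0 : (fun _ => 1 : (Fin 0 → ι) → K) ∈ S 0 := h1
    have h2 : 0 * κ = 0 := zero_mul κ
    rw [h2]
    refine ⟨_, h0, fun i => i.elim0, ⟨one_ne_zero, fun y' _ => ?_⟩, ?_⟩
    · have h3 : y' = fun i => i.elim0 := funext fun i => i.elim0
      rw [h3]
    · rw [wt]
      simp
  | succ j ih =>
    obtain ⟨g, hg, y', hy', hw⟩ := ih
    have hN : j * κ + κ = (j + 1) * κ := by ring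
    have hm := isMerge_std hN
    refine ⟨_, hmul hm g hg z hz, hm.mg y' y, hm.isLead w ?_ ?_, ?_⟩
    · rw [hm.mg_left]
      exact hy'
    · rw [hm.mg_right]
      exact hy
    · rw [hm.wt w, hm.mg_left, hm.mg_right, hw]
      push_cast
      ring

/-- One layer. -/
lemma layer (hmul : MulClosed S) {m n N B : ℕ} (hN : n + m = N) (hm : 0 < m)
    (hBN : m * B ≤ N) (hb : 0 < Fintype.card ι) (hB : 2 * m * Fintype.card ι ≤ B)
    {g : (Fin m → ι) → K} (hg : g ∈ S m) {y : Fin m → ι} (hy : IsLead w g y)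
    (U : Finset (Fin n → ι)) (hU : ∀ u ∈ U, wt w u = 0 ∧ ∃ f ∈ S n, IsLead w f u)
    (hc : (Fintype.card ι : ℝ) ^ N * (2 * Real.exp (1 - B / Fintype.card ι / (4 * m))) ≤
      (Fintype.card ι : ℝ) ^ m * U.card) :
    ∃ T : Finset (Fin N → ι), (∀ x ∈ T, wt w x = wt w y ∧ x ∈ Lead (S N) (rho w)) ∧
      (Fintype.card ι : ℝ) ^ m * U.card ≤ 2 * Real.exp 1 * T.card := by
  classical
  obtain ⟨r, hr⟩ := Nat.exists_eq_add_of_le hBN
  have hr' : m * B + r = N := hr.symm
  choose σ hσ using fun t : Fin m → Fin B =>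
    exists_compl hN (fun k => pos hr' (Sum.inl (k, t k))) (pos_mono hr' t)
  refine ⟨univ.filter fun x => ∃ t : Fin m → Fin B, x ∘ σ t ∈ U ∧
    ∀ k, x (pos hr' (Sum.inl (k, t k))) = y k, ?_, ?_⟩
  · intro x hx
    obtain ⟨t, ht, hk⟩ := (mem_filter.1 hx).2
    have h2 : x ∘ (fun k => pos hr' (Sum.inl (k, t k))) = y := funext hk
    obtain ⟨hu0, f, hf, hfu⟩ := hU _ ht
    refine ⟨?_, ?_⟩
    · rw [(hσ t).wt w, h2, hu0, zero_add]
    · have h3 := (hσ t).isLead w (x := x) hfu (by rw [h2]; exact hy)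
      exact ⟨_, hmul (hσ t) f hf g hg, h3.1, h3.2⟩
  · refine count (pos hr') y hb hm hB U σ ?_ _ ?_ hc
    · intro t u
      refine ⟨(hσ t).mg u y, (hσ t).mg_left u y, fun k => ?_⟩
      exact congrFun ((hσ t).mg_right u y) k
    · intro x t hx hk
      exact mem_filter.2 ⟨mem_univ _, t, hx, hk⟩

/-- **Many layers.** -/
theorem layers (hmul : MulClosed S) (h1 : (fun _ => 1) ∈ S 0) (hb : 0 < Fintype.card ι) {κ : ℕ}
    (hκ : 0 < κ) {z : (Fin κ → ι) → K} (hz : z ∈ S κ) {y : Fin κ → ι} (hy : IsLead w z y)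
    (hy0 : 0 < wt w y) {N J : ℕ} (U : ∀ n, Finset (Fin n → ι))
    (hU : ∀ j ≤ J, ∀ u ∈ U (N - j * κ), wt w u = 0 ∧ ∃ f ∈ S (N - j * κ), IsLead w f u)
    {r P : ℝ} (hP : 1 ≤ P) (hr : ∀ j ≤ J, r ≤ (Fintype.card ι : ℝ) ^ (j * κ) * (U (N - j * κ)).card)
    (hr2 : (Fintype.card ι : ℝ) ^ N ≤ P * r)
    (hJ : (J * κ : ℝ) * (4 * Fintype.card ι * (J * κ) * (1 + Real.log (2 * P)) + 1) ≤ N) :
    (J + 1) * r ≤ 2 * Real.exp 1 * finrank K (S N) := by
  classical
  set b : ℝ := (Fintype.card ι : ℝ) with hbd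
  have hb1 : (1 : ℝ) ≤ b := Nat.one_le_cast.2 hb
  have hlog : 0 ≤ Real.log (2 * P) := Real.log_nonneg (by linarith)
  -- the layers
  have hT : ∀ j : ℕ, ∃ T : Finset (Fin N → ι), j ≤ J →
      (∀ x ∈ T, wt w x = j * wt w y ∧ x ∈ Lead (S N) (rho w)) ∧ r ≤ 2 * Real.exp 1 * T.card := by
    intro j
    by_cases hj : j ≤ J
    swap
    · exact ⟨∅, fun h => absurd h hj⟩
    rcases Nat.eq_zero_or_pos j with rfl | hj0
    · have h2 : N - 0 * κ = N := by omega
      have hU0 := hU 0 hj
      have hr0 := hr 0 hj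
      rw [h2] at hU0 hr0
      refine ⟨U N, fun _ => ⟨fun x hx => ?_, ?_⟩⟩
      · obtain ⟨h3, f, hf, h4⟩ := hU0 x hx
        exact ⟨by rw [h3]; simp, f, hf, h4.1, h4.2⟩
      · rw [zero_mul, pow_zero, one_mul] at hr0
        have h3 := Real.add_one_le_exp 1
        have h4 : (0 : ℝ) ≤ (U N).card := Nat.cast_nonneg _
        nlinarith
    · have hjR : (j : ℝ) ≤ J := by exact_mod_cast hj
      have hj1 : (1 : ℝ) ≤ j := by exact_mod_cast hj0
      have hκ1 : (1 : ℝ) ≤ κ := by exact_mod_cast hκ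
      obtain ⟨g, hg, y', hy', hwy⟩ := exists_pow w hmul h1 hz hy j
      have hm0 : 0 < j * κ := Nat.mul_pos hj0 hκ
      have hmR : (1 : ℝ) ≤ j * κ := by
        have : (1 : ℝ) ≤ ((j * κ : ℕ) : ℝ) := by exact_mod_cast hm0
        push_cast at this
        exact this
      have hmM : (j : ℝ) * κ ≤ J * κ := mul_le_mul_of_nonneg_right hjR (by linarith)
      have hM0 : (0 : ℝ) < J * κ := by linarith
      -- the size of the blocks
      set B : ℕ := N / (j * κ) with hBd
      have hB1 : ((N : ℝ) / ((j : ℝ) * κ)) < B + 1 := by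
        rw [div_lt_iff₀ (by linarith)]
        have h2 : N < (N / (j * κ) + 1) * (j * κ) := by
          have := Nat.lt_div_mul_add (a := N) hm0
          rw [add_mul, one_mul]
          exact this
        have h3 : (N : ℝ) < ((N / (j * κ) + 1 : ℕ) : ℝ) * ((j * κ : ℕ) : ℝ) := by exact_mod_cast h2
        push_cast at h3
        exact_mod_cast h3
      have hB2 : 4 * b * (j * κ) * (1 + Real.log (2 * P)) ≤ B := by
        have h2 : 4 * b * (J * κ) * (1 + Real.log (2 * P)) + 1 ≤ (N : ℝ) / (j * κ) := by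
          rw [le_div_iff₀ (by linarith)]
          refine le_trans ?_ hJ
          rw [mul_comm]
          exact mul_le_mul_of_nonneg_right hmM (by positivity)
        have h3 : 4 * b * (j * κ) * (1 + Real.log (2 * P)) ≤
            4 * b * (J * κ) * (1 + Real.log (2 * P)) := by
          apply mul_le_mul_of_nonneg_right _ (by linarith)
          exact mul_le_mul_of_nonneg_left hmM (by positivity)
        linarith
      have hB3 : 2 * (j * κ) * Fintype.card ι ≤ B := by
        have h2 : 2 * (j * κ : ℝ) * b ≤ B := by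
          refine le_trans ?_ hB2
          have h3 : 0 ≤ b * (j * κ) := by positivity
          nlinarith
        have h3 : ((2 * (j * κ) * Fintype.card ι : ℕ) : ℝ) ≤ B := by
          push_cast
          exact h2
        exact_mod_cast h3
      have hBN : j * κ * B ≤ N := Nat.mul_div_le N (j * κ)
      have hB0 : 1 ≤ B := by
        have h2 : 1 ≤ 2 * (j * κ) * Fintype.card ι := by
          have := Nat.mul_pos hm0 hb
          nlinarith
        exact h2.trans hB3
      have hN : N - j * κ + j * κ = N := by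
        have : j * κ ≤ N := by
          calc j * κ = j * κ * 1 := (mul_one _).symm
            _ ≤ j * κ * B := Nat.mul_le_mul_left _ hB0
            _ ≤ N := hBN
        omega
      have hexp : 2 * Real.exp (1 - B / b / (4 * ((j * κ : ℕ) : ℝ))) ≤ 1 / P := by
        have h2 : 1 + Real.log (2 * P) ≤ B / b / (4 * ((j * κ : ℕ) : ℝ)) := by
          push_cast
          rw [le_div_iff₀ (by linarith), le_div_iff₀ (by linarith)]
          refine le_trans (le_of_eq ?_) hB2
          ring
        have h3 : Real.exp (1 - B / b / (4 * ((j * κ : ℕ) : ℝ))) ≤ Real.exp (-Real.log (2 * P)) :=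
          Real.exp_le_exp.2 (by linarith)
        rw [Real.exp_neg, Real.exp_log (by linarith)] at h3
        have h4 : (2 : ℝ) * (2 * P)⁻¹ = 1 / P := by
          field_simp
        linarith
      have hrj := hr j hj
      have hc : b ^ N * (2 * Real.exp (1 - B / b / (4 * ((j * κ : ℕ) : ℝ)))) ≤
          b ^ (j * κ) * (U (N - j * κ)).card := by
        refine le_trans ?_ hrj
        have hPr : 0 < P := by linarith
        have h2 : b ^ N * (2 * Real.exp (1 - B / b / (4 * ((j * κ : ℕ) : ℝ)))) ≤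
            b ^ N * (1 / P) := mul_le_mul_of_nonneg_left hexp (by positivity)
        refine h2.trans ?_
        rw [mul_one_div, div_le_iff₀ hPr]
        linarith
      obtain ⟨T, hT1, hT2⟩ := layer w hmul hN hm0 hBN hb hB3 hg hy' (U (N - j * κ)) (hU j hj) hc
      refine ⟨T, fun _ => ⟨fun x hx => ?_, hrj.trans hT2⟩⟩
      have h2 := hT1 x hx
      rw [hwy] at h2
      exact h2
  choose T hT using hT
  -- the union of the layers
  have hdisj : ∀ j ∈ range (J + 1), ∀ j' ∈ range (J + 1), j ≠ j' → Disjoint (T j) (T j') := by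
    intro j hj j' hj' hne
    rw [Finset.disjoint_left]
    intro x hx hx'
    have h2 := ((hT j (Nat.lt_succ_iff.1 (mem_range.1 hj))).1 x hx).1
    have h3 := ((hT j' (Nat.lt_succ_iff.1 (mem_range.1 hj'))).1 x hx').1
    rw [h2] at h3
    have h4 := mul_right_cancel₀ hy0.ne' h3
    exact hne (by exact_mod_cast h4)
  have hcard : ((range (J + 1)).biUnion T).card = ∑ j ∈ range (J + 1), (T j).card :=
    card_biUnion hdisj
  have hlead := lead_le_finrank (S N) (rho_inj w) ((range (J + 1)).biUnion T) (by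
    intro x hx
    obtain ⟨j, hj, hx⟩ := mem_biUnion.1 hx
    exact ((hT j (Nat.lt_succ_iff.1 (mem_range.1 hj))).1 x hx).2)
  rw [hcard] at hlead
  calc (J + 1) * r = ∑ _j ∈ range (J + 1), r := by
        rw [sum_const, card_range, nsmul_eq_mul]
        push_cast
        ring
    _ ≤ ∑ j ∈ range (J + 1), 2 * Real.exp 1 * ((T j).card : ℝ) :=
        sum_le_sum fun j hj => (hT j (Nat.lt_succ_iff.1 (mem_range.1 hj))).2
    _ = 2 * Real.exp 1 * ((∑ j ∈ range (J + 1), (T j).card : ℕ) : ℝ) := by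
        rw [← mul_sum]
        push_cast
        rfl
    _ ≤ _ := by
        apply mul_le_mul_of_nonneg_left _ (by positivity)
        exact_mod_cast hlead

end Layers

end Pool.Agent.Run7.h192.Poly
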