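import Pool.Agent.Run7.h192.Poly.GeoD

/-!
# The polynomial law for homological and numerical equivalence
-/

set_option linter.unusedVariables false
set_option linter.unusedSectionVars false

open CategoryTheory AlgebraicGeometry CategoryTheory.Limits TensorProduct Function

universe u v

namespace Pool.Agent.Run7.h192.Poly

open Pool.Agent.H914 Pool.Agent.W534 Pool.Agent.Y163 VarClass Obj WeilCohomology
  Module Pool.Agent.R908 Pool.Agent.R940 Pool.Agent.N180.Cf

variable {k : Type u} [Field k] {𝒱 : VarClass k} {ops : CycleOps 𝒱}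
  {W : WeilCohomology.{u, v} ops} {X Y Z P : 𝒱.Obj}

lemma par_mem_of_sign {κ₀ : W.H X →ₗ[W.K] W.H X} (hκ : IsSign W X κ₀) :
    par (W.isInternal X) ∈ KOp W X X 0 := by
  have h1 : par (W.isInternal X) = κ₀ := by
    apply LinearMap.ext
    intro x
    refine gr_induction (W.isInternal X) (p := fun x => par (W.isInternal X) x = κ₀ x) ?_ ?_ x
    · intro i a ha
      rw [hκ.apply i a ha]
      exact scal_apply _ _ ha
    · intro a b ha hb
      rw [map_add, map_add, ha, hb]
  rw [h1]
  exact hκ.mem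

lemma betti_pos {D : X.Cycles} (hD : X.IsCyc 1 D) (hbig : Big ops X D) :
    0 < finrank W.K (W.H X) := by
  have htr : W.tr X (W.cl X D ^ X.dim) ≠ 0 := hbig.tr hD
  have : Nontrivial (W.H X) := by
    by_contra hcon
    rw [not_nontrivial_iff_subsingleton] at hcon
    apply htr
    rw [Subsingleton.elim (W.cl X D ^ X.dim) 0, map_zero]
  exact finrank_pos

/-- The ranks grow at the same exponential rate. -/
lemma ranks {κ₀ : W.H X →ₗ[W.K] W.H X} (hκ : IsSign W X κ₀) {D : X.Cycles} (hD : X.IsCyc 1 D)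
    (hbig : Big ops X D) (n : ℕ) : 0 < numRank ops (sq X n) ((n + 1) * X.dim) ∧
      numRank ops (sq X n) ((n + 1) * X.dim) ≤ algRank W (sq X n) ((n + 1) * X.dim) ∧
      algRank W (sq X n) ((n + 1) * X.dim) ≤
        (n + 2) ^ (Pool.Agent.R940.betti W X ^ 2) * numRank ops (sq X n) ((n + 1) * X.dim) := by
  have hH := betti_pos (W := W) hD hbig
  have h1 := growth_any (par_mem_of_sign hκ) n
  have h2 : algRank W (sq X n) ((n + 1) * X.dim) ≤ (Pool.Agent.R940.betti W X ^ 2) ^ (n + 1) := by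
    refine (Submodule.finrank_le _).trans (le_of_eq ?_)
    have e := kappa W (pw X n) (pw X n)
    rw [Y163.sq, ← e.finrank_eq, Module.finrank_tensorProduct, finrank_pw, Pool.Agent.R940.betti]
    ring
  refine ⟨?_, ?_, ?_⟩
  · apply Nat.pos_of_ne_zero
    intro h0
    rw [h0, zero_mul] at h1
    have h2 : 0 < (finrank W.K (W.H X) ^ 2) ^ (n + 1) := by positivity
    omega
  · rw [numRank_sq (W := W)]
    exact kRank_le _ _
  · refine h2.trans ?_
    rw [mul_comm]
    exact h1

/-- **The dichotomy.** -/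
theorem main (W : WeilCohomology.{u, v} ops) (X : 𝒱.Obj) (hX : SignOpAlgebraic W X) (P : 𝒱.Obj)
    (hP : finrank W.K (W.H P) = 1) {D : X.Cycles} (hD : X.IsCyc 1 D) (hbig : Big ops X D) :
    (∀ n, 0 < numRank ops (sq X n) ((n + 1) * X.dim) ∧
      numRank ops (sq X n) ((n + 1) * X.dim) ≤ algRank W (sq X n) ((n + 1) * X.dim) ∧
      algRank W (sq X n) ((n + 1) * X.dim) ≤
        (n + 2) ^ (Pool.Agent.R940.betti W X ^ 2) * numRank ops (sq X n) ((n + 1) * X.dim)) ∧
    ∀ κ, HomEqNum W (pw X κ) ∨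
      RootTimes (Pool.Agent.R940.betti W X) (κ + 1) (fun n => algRank W (sq X n) ((n + 1) * X.dim))
        (fun n => numRank ops (sq X n) ((n + 1) * X.dim)) := by
  obtain ⟨_, ⟨γ, hγ, rfl⟩, hγs⟩ := hX
  have hκ : IsSign W X (W.corr γ) :=
    { mem := mem_KOp_iff.2 ⟨γ, by rw [add_zero]; exact hγ, rfl⟩
      apply := hγs }
  refine ⟨ranks hκ hD hbig, fun κ => ?_⟩
  by_cases h : HomEqNum W (pw X κ)
  · exact Or.inl h
  · exact Or.inr (poly_law hκ hP hD hbig κ h)

end Pool.Agent.Run7.h192.Poly
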