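import Pool.Agent.Run7.h192.Poly.Echelon

/-!
# Merging words
-/

set_option linter.unusedSectionVars false

namespace Pool.Agent.Run7.h192.Poly

open Module

section Words

variable {ι : Type*} [LinearOrder ι] (w : ι → ℝ)

/-- The weight of a word. -/
def wt {n : ℕ} (x : Fin n → ι) : ℝ := ∑ i, w (x i)

/-- Words are ordered by weight, and lexicographically for equal weight. -/
def rho {n : ℕ} (x : Fin n → ι) : ℝ ×ₗ Lex (Fin n → ι) := toLex (wt w x, toLex x)

lemma rho_inj {n : ℕ} : Function.Injective (rho w (n := n)) := by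
  intro x y h
  have h1 := congrArg ofLex h
  simp only [rho, ofLex_toLex, Prod.mk.injEq] at h1
  exact toLex.injective h1.2

lemma rho_le {n : ℕ} {x y : Fin n → ι} :
    rho w x ≤ rho w y ↔ wt w x < wt w y ∨ (wt w x = wt w y ∧ toLex x ≤ toLex y) := by
  rw [rho, rho, Prod.Lex.toLex_le_toLex]

/-- The two increasing families of positions are complementary. -/
structure IsMerge {n m N : ℕ} (σ : Fin n → Fin N) (τ : Fin m → Fin N) : Prop where
  mono_left : StrictMono σ
  mono_right : StrictMono τ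
  disj : ∀ i j, σ i ≠ τ j
  cover : ∀ p, (∃ i, σ i = p) ∨ ∃ j, τ j = p

variable {n m N : ℕ} {σ : Fin n → Fin N} {τ : Fin m → Fin N}

lemma IsMerge.bij (h : IsMerge σ τ) : Function.Bijective (Sum.elim σ τ) := by
  constructor
  · rintro (i | i) (j | j) hij
    · exact congrArg Sum.inl (h.mono_left.injective hij)
    · exact absurd hij (h.disj i j)
    · exact absurd hij.symm (h.disj j i)
    · exact congrArg Sum.inr (h.mono_right.injective hij)
  · intro p
    rcases h.cover p with ⟨i, hi⟩ | ⟨i, hi⟩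
    · exact ⟨Sum.inl i, hi⟩
    · exact ⟨Sum.inr i, hi⟩

/-- The merged word. -/
noncomputable def IsMerge.mg (h : IsMerge σ τ) (u : Fin n → ι) (y : Fin m → ι) : Fin N → ι :=
  fun p => Sum.elim u y ((Equiv.ofBijective _ h.bij).symm p)

lemma IsMerge.mg_left (h : IsMerge σ τ) (u : Fin n → ι) (y : Fin m → ι) :
    h.mg u y ∘ σ = u := by
  funext i
  have h1 : (Equiv.ofBijective _ h.bij).symm (σ i) = Sum.inl i := by
    rw [Equiv.symm_apply_eq]
    rfl
  simp only [IsMerge.mg, Function.comp_apply, h1, Sum.elim_inl]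

lemma IsMerge.mg_right (h : IsMerge σ τ) (u : Fin n → ι) (y : Fin m → ι) :
    h.mg u y ∘ τ = y := by
  funext i
  have h1 : (Equiv.ofBijective _ h.bij).symm (τ i) = Sum.inr i := by
    rw [Equiv.symm_apply_eq]
    rfl
  simp only [IsMerge.mg, Function.comp_apply, h1, Sum.elim_inr]

lemma IsMerge.wt (h : IsMerge σ τ) (x : Fin N → ι) :
    wt w x = Poly.wt w (x ∘ σ) + Poly.wt w (x ∘ τ) := by
  have h1 := Equiv.sum_comp (Equiv.ofBijective _ h.bij) fun p => w (x p)
  rw [Poly.wt, ← h1, Fintype.sum_sum_type]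
  rfl

lemma IsMerge.lex (h : IsMerge σ τ) {x x' : Fin N → ι} (hσ : toLex (x ∘ σ) ≤ toLex (x' ∘ σ))
    (hτ : toLex (x ∘ τ) ≤ toLex (x' ∘ τ)) : toLex x ≤ toLex x' := by
  by_contra hcon
  rw [not_le] at hcon
  obtain ⟨p, hp, hlt⟩ := hcon
  rcases h.cover p with ⟨i, rfl⟩ | ⟨i, rfl⟩
  · refine absurd hσ (not_le.2 ⟨i, fun j hj => ?_, hlt⟩)
    exact hp (σ j) (h.mono_left hj)
  · refine absurd hτ (not_le.2 ⟨i, fun j hj => ?_, hlt⟩)
    exact hp (τ j) (h.mono_right hj)

/-- Merged words are compatible with the order. -/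
lemma IsMerge.rho (h : IsMerge σ τ) {x x' : Fin N → ι}
    (hσ : rho w (x ∘ σ) ≤ Poly.rho w (x' ∘ σ)) (hτ : Poly.rho w (x ∘ τ) ≤ Poly.rho w (x' ∘ τ)) :
    Poly.rho w x ≤ Poly.rho w x' := by
  rw [rho_le] at hσ hτ ⊢
  rw [h.wt w x, h.wt w x']
  rcases hσ with h1 | ⟨h1, h1'⟩
  · left
    rcases hτ with h2 | ⟨h2, -⟩
    · exact add_lt_add h1 h2
    · rw [h2]
      linarith
  · rcases hτ with h2 | ⟨h2, h2'⟩
    · left
      rw [h1]
      linarith
    · right
      exact ⟨by rw [h1, h2], h.lex h1' h2'⟩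

variable {K : Type*} [Field K]

/-- The word `x` is the leading word of `f`. -/
def IsLead {n : ℕ} (f : (Fin n → ι) → K) (x : Fin n → ι) : Prop :=
  f x ≠ 0 ∧ ∀ y, f y ≠ 0 → rho w x ≤ rho w y

/-- The product of two functions along a merge. -/
def mulAt (σ : Fin n → Fin N) (τ : Fin m → Fin N) (f : (Fin n → ι) → K)
    (g : (Fin m → ι) → K) : (Fin N → ι) → K :=
  fun x => f (x ∘ σ) * g (x ∘ τ)

lemma IsMerge.isLead (h : IsMerge σ τ) {f : (Fin n → ι) → K} {g : (Fin m → ι) → K}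
    {x : Fin N → ι} (hf : IsLead w f (x ∘ σ)) (hg : IsLead w g (x ∘ τ)) :
    IsLead w (mulAt σ τ f g) x := by
  refine ⟨mul_ne_zero hf.1 hg.1, fun y hy => ?_⟩
  exact h.rho w (hf.2 _ (left_ne_zero_of_mul hy)) (hg.2 _ (right_ne_zero_of_mul hy))

end Words

end Pool.Agent.Run7.h192.Poly
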